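import Pool.Agent.Lib.MP_b525bf_ag_h90.PClosed

/-!
Extension of derivations to localisations.
-/

set_option autoImplicit false

namespace Pool.Agent.MP_b525bf_ag.H90

/-- A derivation extends to every localisation. -/
theorem exists_extend {k S : Type} [Field k] [CommRing S] [Algebra k S] (D : Derivation k S S)
    (M : Submonoid S) (T : Type) [CommRing T] [Algebra k T] [Algebra S T] [IsScalarTower k S T]
    [IsLocalization M T] :
    ∃ D' : Derivation k T T, ∀ s, D' (algebraMap S T s) = algebraMap S T (D s) := by
  let g : Ω[S⁄k] →ₗ[S] T := (Algebra.linearMap S T) ∘ₗ D.liftKaehlerDifferential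
  have hu : ∀ x : M, IsUnit ((algebraMap S (Module.End S T)) x) := by
    intro x
    obtain ⟨u, hu⟩ := IsLocalization.map_units T x
    refine ⟨⟨algebraMap S (Module.End S T) x, LinearMap.mulLeft S (↑u⁻¹ : T), ?_, ?_⟩, rfl⟩
    · refine LinearMap.ext fun y => ?_
      change (x : S) • ((↑u⁻¹ : T) * y) = y
      rw [Algebra.smul_def, ← hu, ← mul_assoc, Units.mul_inv, one_mul]
    · refine LinearMap.ext fun y => ?_
      change (↑u⁻¹ : T) * ((x : S) • y) = y
      rw [Algebra.smul_def, ← hu, ← mul_assoc, Units.inv_mul, one_mul]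
  let L : Ω[T⁄k] →ₗ[S] T := IsLocalizedModule.lift M (KaehlerDifferential.map k k S T) g hu
  have hL : ∀ y, L (KaehlerDifferential.map k k S T y) = g y := fun y =>
    IsLocalizedModule.lift_apply M (KaehlerDifferential.map k k S T) g hu y
  let L' : Ω[T⁄k] →ₗ[T] T := L.extendScalarsOfIsLocalization M T
  refine ⟨L'.compDer (KaehlerDifferential.D k T), fun s => ?_⟩
  change L (KaehlerDifferential.D k T (algebraMap S T s)) = _
  have h1 : KaehlerDifferential.D k T (algebraMap S T s) =
      KaehlerDifferential.map k k S T (KaehlerDifferential.D k S s) := by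
    rw [KaehlerDifferential.map_D]
  rw [h1, hL]
  change algebraMap S T (D.liftKaehlerDifferential (KaehlerDifferential.D k S s)) = _
  rw [Derivation.liftKaehlerDifferential_comp_D]

/-- Derivations of a localisation are determined by their values on the ring. -/
lemma eq_of_localization {S T U : Type} [CommRing S] [CommRing T] [CommRing U] [Algebra S T]
    (M : Submonoid S) [IsLocalization M T] (φ : T →+* U) (d₁ d₂ : T →+ U)
    (h₁ : ∀ x y, d₁ (x * y) = φ x * d₁ y + φ y * d₁ x)
    (h₂ : ∀ x y, d₂ (x * y) = φ x * d₂ y + φ y * d₂ x)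
    (h : ∀ s, d₁ (algebraMap S T s) = d₂ (algebraMap S T s)) (y : T) : d₁ y = d₂ y := by
  obtain ⟨⟨s, m⟩, hs⟩ := IsLocalization.surj M y
  obtain ⟨u, hu⟩ := (IsLocalization.map_units T m).map φ
  have e1 := h₁ y (algebraMap S T m)
  have e2 := h₂ y (algebraMap S T m)
  simp only at hs
  rw [hs] at e1 e2
  rw [h s, e2, h m, ← hu] at e1
  have e3 : (u : U) * d₁ y = (u : U) * d₂ y := by linear_combination -e1
  have e4 := congrArg (fun z => (↑u⁻¹ : U) * z) e3
  simpa [← mul_assoc] using e4

section frac

variable {k B K : Type} [Field k] [CommRing B] [Algebra k B] [Field K] [Algebra k K] [Algebra B K]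
  [IsScalarTower k B K]

omit [IsScalarTower k B K] in
lemma iter_algebraMap {D : Derivation k B B} {DK : Derivation k K K}
    (h : ∀ b, DK (algebraMap B K b) = algebraMap B K (D b)) (m : ℕ) (b : B) :
    (⇑DK)^[m] (algebraMap B K b) = algebraMap B K ((⇑D)^[m] b) := by
  induction m with
  | zero => rfl
  | succ m ih => rw [Function.iterate_succ', Function.comp_apply, ih, h,
      Function.iterate_succ', Function.comp_apply]

/-- The extension of a `p`-closed derivation to the field of fractions is `p`-closed. -/
theorem pc_frac (p : ℕ) [hp : Fact p.Prime] [CharP k p] [IsDomain B] [IsFractionRing B K]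
    (D : Derivation k B B) (DK : Derivation k K K)
    (h : ∀ b, DK (algebraMap B K b) = algebraMap B K (D b)) (hPC : PC p D) : PC p DK := by
  have hrep : ∀ x : K, ∃ (c : K) (b : B), DK c = 0 ∧ x = c * algebraMap B K b := by
    intro x
    obtain ⟨b, s, hs, rfl⟩ := IsFractionRing.div_surjective B x
    have hs0 : algebraMap B K s ≠ 0 := by
      intro h0
      have := IsFractionRing.injective B K (h0.trans (map_zero _).symm)
      exact nonZeroDivisors.ne_zero hs this
    have hchar : ((p : ℕ) : K) = 0 := by
      rw [← map_natCast (algebraMap k K), CharP.cast_eq_zero k p, map_zero]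
    refine ⟨((algebraMap B K s) ^ p)⁻¹, s ^ (p - 1) * b, ?_, ?_⟩
    · rw [DK.leibniz_inv, DK.leibniz_pow, nsmul_eq_mul, hchar, zero_mul, smul_zero]
    · have h1 : (algebraMap B K s) ^ p = (algebraMap B K s) ^ (p - 1) * algebraMap B K s := by
        rw [← pow_succ, Nat.sub_add_cancel hp.out.one_le]
      have h2 := pow_ne_zero (p - 1) hs0
      rw [h1, map_mul, map_pow]
      field_simp
  intro x y
  obtain ⟨c, b, hc, rfl⟩ := hrep x
  obtain ⟨c', b', hc', rfl⟩ := hrep y
  have e : ∀ {c : K} (_ : DK c = 0) (z : K), DK (c * z) = c * DK z := fun {c} hc z => by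
    rw [DK.leibniz, hc, smul_zero, add_zero, smul_eq_mul]
  rw [iter_const_mul DK hc, iter_const_mul DK hc', e hc, e hc', iter_algebraMap h,
    iter_algebraMap h, h, h]
  have h1 := congrArg (algebraMap B K) (hPC b b')
  rw [map_mul, map_mul] at h1
  linear_combination c * c' * h1

end frac

end Pool.Agent.MP_b525bf_ag.H90
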