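import Pool.Agent.Lib.MP_b525bf_ag.Defs

/-!
Definitions for quotients by foliations with nondegenerate weighted homogeneous leading forms.
-/

namespace Pool.Agent.MP_b525bf_ag.H90

/-- The ring `B ∩ L`, for a field `L` between `k` and the field of fractions of `B`. -/
noncomputable def intersection {k B : Type} [Field k] [CommRing B] [IsDomain B] [Algebra k B]
    (L : IntermediateField k (FractionRing B)) : Subalgebra k B :=
  L.toSubalgebra.comap (IsScalarTower.toAlgHom k B (FractionRing B))

/-- The ideal generated by the monomials `∏ x i ^ α i` of weight `∑ α i * w i ≥ a`. -/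
def weightIdeal {A : Type} [CommRing A] {n : ℕ} (x : Fin n → A) (w : Fin n → ℕ) (a : ℕ) :
    Ideal A :=
  Ideal.span {y | ∃ α : Fin n → ℕ, a ≤ ∑ i, α i * w i ∧ y = ∏ i, x i ^ α i}

/-- The ideal generated by the minors of size `r` of the matrix `g`. -/
def minorIdeal {R : Type} [CommRing R] {m n : ℕ} (g : Fin m → Fin n → R) (r : ℕ) : Ideal R :=
  Ideal.span {z | ∃ (s : Fin r → Fin m) (t : Fin r → Fin n),
    z = (Matrix.of fun a b => g (s a) (t b)).det}

/-- On the open subset `Spec B[1/f]` there are étale coordinates `x 0, …, x (n - 1)` with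
weights `w j ≥ 0` such that `F a` is the ideal generated by the monomials of weight `≥ a`, and
derivations `D i` over `A` such that the leading forms `g i j` of `D i (x j)`, which are weighted
homogeneous of degree `w j + e i`, are nondegenerate: modulo the ideal `F 1` of the centre, every
coordinate of positive weight is in the radical of the ideal generated by the minors of size `r` of
the matrix `g`. -/
def WeightedChart {k B : Type} [Field k] [CommRing B] [Algebra k B] (A : Subalgebra k B) (r : ℕ)
    (F : ℕ → Ideal B) (f : B) : Prop :=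
  ∃ (m n : ℕ) (D : Fin m → Derivation k (Localization.Away f) (Localization.Away f))
    (e : Fin m → ℕ) (x : Fin n → Localization.Away f) (w : Fin n → ℕ)
    (g : Fin m → Fin n → MvPolynomial (Fin n) (Localization.Away f)),
    (∀ i, ∀ a ∈ A, D i (algebraMap B (Localization.Away f) a) = 0) ∧
    (MvPolynomial.aeval x : MvPolynomial (Fin n) k →ₐ[k] Localization.Away f).toRingHom.Etale ∧
    (∀ a, (F a).map (algebraMap B (Localization.Away f)) = weightIdeal x w a) ∧
    (∀ i j, (g i j).IsWeightedHomogeneous w (w j + e i)) ∧
    (∀ i j, D i (x j) - MvPolynomial.eval x (g i j) ∈ weightIdeal x w (w j + e i + 1)) ∧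
    ∀ j, 0 < w j → MvPolynomial.X j ∈
      (minorIdeal g r ⊔ (weightIdeal x w 1).map MvPolynomial.C).radical

end Pool.Agent.MP_b525bf_ag.H90
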