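import Pool.Agent.Lib.MP_b525bf_ag.Descent

/-!
Constants of a derivation `D` with `D ^ p = 0` in characteristic `p`.
-/

set_option autoImplicit false

namespace Pool.Agent.MP_b525bf_ag.H90

open Polynomial

/-- Formal smoothness descends along `S ⊆ R` if `R` has an `S`-basis `1, y, ..., y ^ (p - 1)`. -/
theorem formallySmooth_of_basis {k R : Type} [Field k] [CommRing R] [Algebra k R] (p : ℕ)
    (hp : 0 < p) (S : Subalgebra k R) (y : R)
    (hrep : ∀ b : R, ∃ a : Fin p → S, ∑ i, (a i : R) * y ^ (i : ℕ) = b)
    (huniq : ∀ a : Fin p → S, ∑ i, (a i : R) * y ^ (i : ℕ) = 0 → ∀ i, a i = 0)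
    [Algebra.FormallySmooth k R] : Algebra.FormallySmooth k S := by
  rcases subsingleton_or_nontrivial R with hR | hR
  · have : Subsingleton S := ⟨fun a b => Subtype.ext (Subsingleton.elim _ _)⟩
    rw [Algebra.FormallySmooth.iff_comp_surjective]
    intro B _ _ I hI f
    have h1 : (1 : B ⧸ I) = 0 := by
      rw [← map_one f, Subsingleton.elim (1 : S) 0, map_zero]
    have hsub : Subsingleton (B ⧸ I) := subsingleton_of_zero_eq_one h1.symm
    have hItop : I = ⊤ := Ideal.Quotient.subsingleton_iff.1 hsub
    have hB : Subsingleton B := by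
      rw [hItop, Ideal.top_pow] at hI
      refine subsingleton_of_zero_eq_one ?_
      have : (1 : B) ∈ (⊥ : Ideal B) := hI ▸ Submodule.mem_top
      exact ((Submodule.mem_bot B).1 this).symm
    let g : S →ₐ[k] B :=
      { toFun := fun _ => 0
        map_one' := Subsingleton.elim _ _
        map_mul' := fun _ _ => Subsingleton.elim _ _
        map_zero' := rfl
        map_add' := fun _ _ => Subsingleton.elim _ _
        commutes' := fun _ => Subsingleton.elim _ _ }
    exact ⟨g, AlgHom.ext fun _ => Subsingleton.elim _ _⟩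
  obtain ⟨a, ha⟩ := hrep (y ^ p)
  set Q : S[X] := -∑ i : Fin p, C (a i) * X ^ (i : ℕ) with hQ
  have hQdeg : Q.degree < p := by
    rw [hQ, degree_neg]; exact degree_sum_fin_lt _
  set F : S[X] := X ^ p + Q with hF
  have hFm : F.Monic := monic_X_pow_add hQdeg
  have hFdeg : F.natDegree = p := by
    have h1 : F.degree = p := by
      rw [hF, degree_add_eq_left_of_degree_lt]
      · exact degree_X_pow p
      · rw [degree_X_pow]; exact hQdeg
    exact natDegree_eq_of_degree_eq_some h1
  have hroot : F.eval₂ (S.val : S →+* R) y = 0 := by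
    rw [hF, eval₂_add, eval₂_pow, eval₂_X, hQ, eval₂_neg, eval₂_finsetSum]
    have : ∑ i : Fin p, eval₂ (S.val : S →+* R) y (C (a i) * X ^ (i : ℕ)) =
        y ^ p := by
      rw [← ha]
      refine Finset.sum_congr rfl fun i _ => ?_
      rw [eval₂_mul, eval₂_C, eval₂_pow, eval₂_X]
      rfl
    rw [this]
    ring
  let Φ : AdjoinRoot F →ₐ[k] R := AdjoinRoot.liftAlgHom F S.val y hroot
  have hΦmk : ∀ P, Φ (AdjoinRoot.mk F P) = P.eval₂ (S.val : S →+* R) y :=
    fun P => AdjoinRoot.liftAlgHom_mk F S.val y hroot P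
  have hsurj : Function.Surjective Φ := by
    intro b
    obtain ⟨c, hc⟩ := hrep b
    refine ⟨AdjoinRoot.mk F (∑ i : Fin p, C (c i) * X ^ (i : ℕ)), ?_⟩
    rw [hΦmk, eval₂_finsetSum, ← hc]
    refine Finset.sum_congr rfl fun i _ => ?_
    rw [eval₂_mul, eval₂_C, eval₂_pow, eval₂_X]
    rfl
  have hinj : Function.Injective Φ := by
    rw [injective_iff_map_eq_zero]
    intro x hx
    obtain ⟨P, hP⟩ : ∃ P, P = AdjoinRoot.modByMonicHom hFm x := ⟨_, rfl⟩
    have hx2 : AdjoinRoot.mk F P = x := by rw [hP]; exact AdjoinRoot.mk_leftInverse hFm x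
    have hPdeg : P.natDegree < p := by
      have hnt : Nontrivial S := inferInstance
      obtain ⟨Q', hQ'⟩ := AdjoinRoot.mk_surjective x
      rw [hP, ← hQ', AdjoinRoot.modByMonicHom_mk, ← hFdeg]
      refine natDegree_modByMonic_lt _ hFm ?_
      intro h1
      rw [h1, natDegree_one] at hFdeg
      omega
    rw [← hx2, hΦmk, eval₂_eq_sum_range' _ hPdeg] at hx
    rw [← Fin.sum_univ_eq_sum_range
      (fun i => (S.val : S →+* R) (P.coeff i) * y ^ i) p] at hx
    have h0 := huniq (fun i => P.coeff i) hx
    have hP0 : P = 0 := by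
      ext n
      by_cases hn : n < p
      · have := h0 ⟨n, hn⟩
        simp only at this
        rw [this]; simp
      · rw [coeff_eq_zero_of_natDegree_lt (by omega)]
        simp
    rw [← hx2, hP0, map_zero]
  have : Algebra.FormallySmooth k (AdjoinRoot F) :=
    Algebra.FormallySmooth.of_equiv (AlgEquiv.ofBijective Φ ⟨hinj, hsurj⟩).symm
  exact formallySmooth_of_adjoinRoot F hFm (by rw [hFdeg]; exact hp)

variable {k R : Type} [Field k] [CommRing R] [Algebra k R]

/-- The subalgebra of constants of a derivation. -/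
def constAlg (D : Derivation k R R) : Subalgebra k R where
  carrier := {x | D x = 0}
  mul_mem' := by
    intro a b ha hb
    change D (a * b) = 0
    have ha' : D a = 0 := ha
    have hb' : D b = 0 := hb
    rw [D.leibniz, ha', hb', smul_zero, smul_zero, add_zero]
  add_mem' := by
    intro a b ha hb
    change D (a + b) = 0
    have ha' : D a = 0 := ha
    have hb' : D b = 0 := hb
    rw [map_add, ha', hb', add_zero]
  algebraMap_mem' c := D.map_algebraMap c

lemma mem_constAlg {D : Derivation k R R} {x : R} : x ∈ constAlg D ↔ D x = 0 := Iff.rfl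

section

variable (D : Derivation k R R)

lemma iter_const_mul {a : R} (ha : D a = 0) (m : ℕ) (x : R) :
    (⇑D)^[m] (a * x) = a * (⇑D)^[m] x := by
  induction m with
  | zero => rfl
  | succ m ih =>
    rw [Function.iterate_succ', Function.comp_apply, Function.comp_apply, ih, D.leibniz, ha,
      smul_zero, add_zero, smul_eq_mul]

lemma iter_zero (m : ℕ) : (⇑D)^[m] 0 = 0 := by
  induction m with
  | zero => rfl
  | succ m ih => rw [Function.iterate_succ', Function.comp_apply, ih, map_zero]

lemma iter_add (m : ℕ) (x z : R) : (⇑D)^[m] (x + z) = (⇑D)^[m] x + (⇑D)^[m] z := by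
  induction m with
  | zero => rfl
  | succ m ih => simp only [Function.iterate_succ', Function.comp_apply, ih, map_add]

lemma iter_sub (m : ℕ) (x z : R) : (⇑D)^[m] (x - z) = (⇑D)^[m] x - (⇑D)^[m] z := by
  induction m with
  | zero => rfl
  | succ m ih => simp only [Function.iterate_succ', Function.comp_apply, ih, map_sub]

lemma iter_sum {ι : Type} (s : Finset ι) (m : ℕ) (x : ι → R) :
    (⇑D)^[m] (∑ i ∈ s, x i) = ∑ i ∈ s, (⇑D)^[m] (x i) := by
  classical
  induction s using Finset.induction_on with
  | empty => simpa using iter_zero D m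
  | insert a s ha ih => rw [Finset.sum_insert ha, Finset.sum_insert ha, iter_add, ih]

variable {D}

lemma iter_pow {y : R} (hy : D y = 1) (m j : ℕ) :
    (⇑D)^[j] (y ^ m) = (m.descFactorial j : R) * y ^ (m - j) := by
  induction j with
  | zero => simp
  | succ j ih =>
    rw [Function.iterate_succ', Function.comp_apply, ih, D.leibniz, D.leibniz_pow, hy,
      Nat.descFactorial_succ]
    have h1 : D ((m.descFactorial j : ℕ) : R) = 0 := by
      have := D.map_natCast (m.descFactorial j)
      exact this
    rw [h1, smul_zero, add_zero, smul_eq_mul, nsmul_eq_mul, smul_eq_mul, mul_one]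
    push_cast
    rw [show m - j - 1 = m - (j + 1) by omega]
    ring

lemma natCast_ne_zero_of_lt {p : ℕ} [Fact p.Prime] [CharP k p] {m : ℕ} (hm : m < p) :
    ((m.factorial : ℕ) : k) ≠ 0 := by
  intro h
  rw [CharP.cast_eq_zero_iff k p] at h
  exact absurd ((Nat.Prime.dvd_factorial (Fact.out : p.Prime)).1 h) (by omega)

/-- Taylor expansion. -/
lemma exists_rep_aux (p : ℕ) [Fact p.Prime] [CharP k p] {y : R} (hy : D y = 1) (m : ℕ)
    (hm : m ≤ p) (x : R) (hx : (⇑D)^[m] x = 0) :
    ∃ a : ℕ → R, (∀ i, D (a i) = 0) ∧ x = ∑ i ∈ Finset.range m, a i * y ^ i := by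
  induction m generalizing x with
  | zero => exact ⟨0, fun _ => map_zero D, by simpa using hx⟩
  | succ m ih =>
    rw [Function.iterate_succ', Function.comp_apply] at hx
    set c : k := ((m.factorial : ℕ) : k)⁻¹ with hc
    have hc0 : ((m.factorial : ℕ) : k) ≠ 0 := natCast_ne_zero_of_lt (k := k) (p := p) (by omega)
    set b : R := algebraMap k R c * (⇑D)^[m] x with hb
    have hDb : D b = 0 := by
      rw [hb, D.leibniz, hx, D.map_algebraMap, smul_zero, smul_zero, add_zero]
    have h1 : (⇑D)^[m] (x - b * y ^ m) = 0 := by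
      rw [iter_sub, iter_const_mul D hDb, iter_pow hy, Nat.descFactorial_self, Nat.sub_self,
        pow_zero, mul_one, hb]
      have h2 : algebraMap k R c * ((m.factorial : ℕ) : R) = 1 := by
        rw [← map_natCast (algebraMap k R), ← map_mul, hc, inv_mul_cancel₀ hc0, map_one]
      have h3 : algebraMap k R c * (⇑D)^[m] x * ((m.factorial : ℕ) : R) = (⇑D)^[m] x := by
        calc _ = (algebraMap k R c * ((m.factorial : ℕ) : R)) * (⇑D)^[m] x := by ring
          _ = _ := by rw [h2, one_mul]
      rw [h3, sub_self]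
    obtain ⟨a, ha, hax⟩ := ih (by omega) _ h1
    refine ⟨fun i => if i = m then b else a i, ?_, ?_⟩
    · intro i
      dsimp only
      split_ifs
      · exact hDb
      · exact ha i
    · dsimp only
      rw [Finset.sum_range_succ, if_pos rfl]
      have h4 : ∑ i ∈ Finset.range m, (if i = m then b else a i) * y ^ i =
          ∑ i ∈ Finset.range m, a i * y ^ i := by
        refine Finset.sum_congr rfl fun i hi => ?_
        rw [if_neg (by have := Finset.mem_range.1 hi; omega)]
      rw [h4, ← hax]
      ring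

lemma rep_unique_aux (p : ℕ) [Fact p.Prime] [CharP k p] {y : R} (hy : D y = 1) (m : ℕ)
    (hm : m ≤ p) (a : ℕ → R) (ha : ∀ i, D (a i) = 0)
    (h : ∑ i ∈ Finset.range m, a i * y ^ i = 0) : ∀ i < m, a i = 0 := by
  induction m with
  | zero => intro i hi; omega
  | succ m ih =>
    have h1 := congrArg (⇑D)^[m] h
    rw [iter_zero, iter_sum] at h1
    have h2 : ∀ i ∈ Finset.range (m + 1), i ≠ m → (⇑D)^[m] (a i * y ^ i) = 0 := by
      intro i hi him
      have hi' := Finset.mem_range.1 hi
      rw [iter_const_mul D (ha i), iter_pow hy, Nat.descFactorial_of_lt (by omega)]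
      simp
    rw [Finset.sum_eq_single m h2 (fun hm' => absurd (Finset.mem_range.2 (Nat.lt_succ_self m)) hm'),
      iter_const_mul D (ha m), iter_pow hy, Nat.descFactorial_self, Nat.sub_self, pow_zero,
      mul_one] at h1
    have hc0 : ((m.factorial : ℕ) : k) ≠ 0 := natCast_ne_zero_of_lt (k := k) (p := p) (by omega)
    have ham : a m = 0 := by
      have h3 : a m * ((m.factorial : ℕ) : R) * algebraMap k R (((m.factorial : ℕ) : k)⁻¹) = 0 := by
        rw [h1, zero_mul]
      rwa [mul_assoc, ← map_natCast (algebraMap k R), ← map_mul, mul_inv_cancel₀ hc0, map_one,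
        mul_one] at h3
    intro i hi
    rcases Nat.lt_succ_iff_lt_or_eq.1 hi with hi | rfl
    · refine ih (by omega) ?_ i hi
      rw [Finset.sum_range_succ, ham, zero_mul, add_zero] at h
      exact h
    · exact ham

/-- If `D ^ p = 0` and `D y = 1`, the ring is formally smooth only if its constants are. -/
theorem formallySmooth_const (p : ℕ) [Fact p.Prime] [CharP k p] (D : Derivation k R R)
    (hD : ∀ x, (⇑D)^[p] x = 0) (y : R) (hy : D y = 1) [Algebra.FormallySmooth k R] :
    Algebra.FormallySmooth k (constAlg D) := by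
  refine formallySmooth_of_basis p (Fact.out : p.Prime).pos (constAlg D) y ?_ ?_
  · intro b
    obtain ⟨a, ha, hb⟩ := exists_rep_aux p hy p le_rfl b (hD b)
    refine ⟨fun i => ⟨a i, ha i⟩, ?_⟩
    rw [hb, ← Fin.sum_univ_eq_sum_range (fun i => a i * y ^ i) p]
  · intro a h i
    have h1 := rep_unique_aux p hy p le_rfl
      (fun i => if h : i < p then (a ⟨i, h⟩ : R) else 0) (by
        intro i
        split_ifs with h
        · exact (a ⟨i, h⟩).2
        · exact map_zero D) (by
        rw [← Fin.sum_univ_eq_sum_range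
          (fun i => (if h : i < p then (a ⟨i, h⟩ : R) else 0) * y ^ i) p, ← h]
        refine Finset.sum_congr rfl fun i _ => ?_
        rw [dif_pos i.2]) i i.2
    rw [dif_pos i.2] at h1
    exact Subtype.ext h1

end

end Pool.Agent.MP_b525bf_ag.H90
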