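import Pool.Agent.Lib.MP_b525bf_ag_h90.InitR

/-!
Dual systems from a nonvanishing determinant.
-/

set_option autoImplicit false

namespace Pool.Agent.MP_b525bf_ag.H90

open AddMonoidAlgebra

variable {k K : Type} [Field k] [Field K] [Algebra k K]

/-- The determinant of a homogeneous matrix is homogeneous. -/
lemma det_mem (N : Fam k K ℤ) {r : ℕ} (M : Matrix (Fin r) (Fin r) K) (d a : Fin r → ℤ)
    (h : ∀ i j, M i j ∈ N.s (d i + a j)) : M.det ∈ N.s (∑ i, d i + ∑ i, a i) := by
  classical
  rw [Matrix.det_apply]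
  refine Submodule.sum_mem _ fun σ _ => ?_
  have h1 : ∏ i, M (σ i) i ∈ N.s (∑ i, (d (σ i) + a i)) := by
    have : ∀ s : Finset (Fin r), ∏ i ∈ s, M (σ i) i ∈ N.s (∑ i ∈ s, (d (σ i) + a i)) := by
      intro s
      induction s using Finset.induction_on with
      | empty => simpa using N.one'
      | insert i s hi ih =>
        rw [Finset.prod_insert hi, Finset.sum_insert hi]
        exact N.mul' (h _ _) ih
    exact this Finset.univ
  rw [Finset.sum_add_distrib, Equiv.sum_comp σ d] at h1
  rcases Int.units_eq_one_or (Equiv.Perm.sign σ) with hs | hs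
  · rw [hs, one_smul]; exact h1
  · rw [hs, Units.neg_smul, one_smul]; exact Submodule.neg_mem _ h1

lemma adjugate_mem (N : Fam k K ℤ) {r : ℕ} (M : Matrix (Fin r) (Fin r) K) (d a : Fin r → ℤ)
    (h : ∀ i j, M i j ∈ N.s (d i + a j)) (j i : Fin r) :
    M.adjugate j i ∈ N.s (∑ i, d i + ∑ i, a i - d i - a j) := by
  classical
  rw [Matrix.adjugate_apply]
  have h1 := det_mem N (M.updateRow i (Pi.single j 1)) (Function.update d i (-(a j))) a
    (fun i' j' => by
      by_cases hi : i' = i
      · subst hi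
        rw [Matrix.updateRow_self, Function.update_self]
        by_cases hj : j' = j
        · subst hj
          rw [Pi.single_eq_same, neg_add_cancel]
          exact N.one'
        · rw [Pi.single_eq_of_ne hj]
          exact Submodule.zero_mem _
      · rw [Matrix.updateRow_ne hi, Function.update_of_ne hi]
        exact h i' j')
  convert h1 using 2
  rw [Finset.sum_update_of_mem (Finset.mem_univ i)]
  have : ∑ x, d x = d i + ∑ x ∈ Finset.univ \ {i}, d x := by
    rw [← Finset.sum_update_of_mem (Finset.mem_univ i) d (d i), Function.update_eq_self]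
  rw [this]
  ring

/-- Homogeneous derivations extend to localisations. -/
lemma MapsD.loc'' (p : ℕ) [hp : Fact p.Prime] [CharP k p] {N : Fam k K ℤ} {D : Derivation k K K}
    {d : ℤ} (h : MapsD N D d) {b : ℤ} {f : K} (hf : f ∈ N.s b) : MapsD (N.loc hf) D d := by
  rintro a y ⟨m, hm⟩
  have h1 := N.mul' (N.pow' hf (m * (p - 1))) hm
  have h2 := h _ _ h1
  have e : f ^ (m * (p - 1)) * (f ^ m * y) = (f ^ p) ^ m * y := by
    obtain ⟨q, hq⟩ := Nat.exists_eq_add_of_le' hp.out.pos
    rw [hq, Nat.add_sub_cancel]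
    ring
  rw [e, D_const_mul (D_pow_const (D_pow_char p D f) m), ← pow_mul] at h2
  refine ⟨p * m, ?_⟩
  convert h2 using 2
  obtain ⟨q, hq⟩ := Nat.exists_eq_add_of_le' hp.out.pos
  rw [hq, Nat.add_sub_cancel]
  simp only [nsmul_eq_mul]
  push_cast
  ring

/-- Dual systems from a nonvanishing determinant. -/
theorem exists_dualChart (p : ℕ) [hp : Fact p.Prime] [CharP k p] (N : Fam k K ℤ)
    (L : IntermediateField k K) {r : ℕ} (D : Fin r → Derivation k K K) (d : Fin r → ℤ)
    (hD : ∀ i, MapsD N (D i) (d i)) (hL : ∀ i, ∀ z ∈ L, D i z = 0) (y : Fin r → K)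
    (a : Fin r → ℤ) (hy : ∀ j, y j ∈ N.s (a j))
    (hdet : (Matrix.of fun i j => D i (y j)).det ∈ N.s (∑ i, d i + ∑ i, a i))
    (hdet0 : (Matrix.of fun i j => D i (y j)).det ≠ 0) :
    DualChart (N.loc hdet) L r := by
  classical
  set M : Matrix (Fin r) (Fin r) K := Matrix.of fun i j => D i (y j) with hM
  have hMmem : ∀ i j, M i j ∈ N.s (d i + a j) := fun i j => by
    have := hD i _ _ (hy j)
    rw [add_comm] at this
    exact this
  set δ := M.det with hδ
  have hinv : δ⁻¹ ∈ (N.loc hdet).s (-(∑ i, d i + ∑ i, a i)) := N.inv_mem_loc hdet hdet0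
  let c : Fin r → Fin r → K := fun j i => δ⁻¹ * M.adjugate j i
  have hc : ∀ j i, c j i ∈ (N.loc hdet).s (-(a j) - d i) := by
    intro j i
    have h1 := (N.loc hdet).mul' hinv (N.le_loc hdet _ (adjugate_mem N M d a hMmem j i))
    convert h1 using 2
    ring
  let E : Fin r → Derivation k K K := fun j => ∑ i, c j i • D i
  have hE : ∀ j z, E j z = ∑ i, c j i * D i z := by
    intro j z
    have h1 : ∀ s : Finset (Fin r), (∑ i ∈ s, c j i • D i) z = ∑ i ∈ s, c j i * D i z := by
      intro s
      induction s using Finset.induction_on with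
      | empty => rw [Finset.sum_empty, Finset.sum_empty]; rfl
      | insert i s hi ih =>
        rw [Finset.sum_insert hi, Finset.sum_insert hi, ← ih]
        rfl
    exact h1 Finset.univ
  refine ⟨y, E, a, ⟨?_, ?_⟩, fun i => N.le_loc hdet _ (hy i), ?_⟩
  · intro j z hz
    rw [hE]
    exact Finset.sum_eq_zero fun i _ => by rw [hL i z hz, mul_zero]
  · intro j l
    rw [hE]
    have h1 : ∑ i, c j i * D i (y l) = δ⁻¹ * (M.adjugate * M) j l := by
      rw [Matrix.mul_apply, Finset.mul_sum]
      refine Finset.sum_congr rfl fun i _ => ?_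
      rw [mul_assoc]
      rfl
    rw [h1, Matrix.adjugate_mul, Matrix.smul_apply, Matrix.one_apply, smul_eq_mul, ← mul_assoc,
      ← hδ, inv_mul_cancel₀ hdet0, one_mul]
  · intro j b z hz
    rw [hE]
    refine Submodule.sum_mem _ fun i _ => ?_
    have h1 := (N.loc hdet).mul' (hc j i) ((hD i).loc'' p hdet b z hz)
    convert h1 using 2
    ring

end Pool.Agent.MP_b525bf_ag.H90
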