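import Pool.Agent.Lib.MP_b525bf_ag_h90.PClosed

/-!
Purely inseparable extensions of exponent one with a dual system of derivations.
-/

set_option autoImplicit false

namespace Pool.Agent.MP_b525bf_ag.H90

variable {k K : Type} [Field k] [Field K] [Algebra k K]

/-- The monomials of degree `< p` in each variable are independent over the constants. -/
theorem indep_aux (p : ℕ) [hp : Fact p.Prime] [CharP k p] (r : ℕ) (y : Fin r → K)
    (E : Fin r → Derivation k K K) (hE : ∀ i j, E i (y j) = if i = j then 1 else 0)
    (c : (Fin r → Fin p) → K) (hc : ∀ i α, E i (c α) = 0)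
    (h : ∑ α, c α * ∏ j, y j ^ (α j : ℕ) = 0) : ∀ α, c α = 0 := by
  induction r with
  | zero =>
    intro α
    have : ∑ α : Fin 0 → Fin p, c α * ∏ j, y j ^ (α j : ℕ) = c α := by
      rw [Fintype.sum_eq_single α (fun β hβ => absurd (Subsingleton.elim β α) hβ)]
      simp
    rw [← this, h]
  | succ r ih =>
    have hsum : ∑ α, c α * ∏ j, y j ^ (α j : ℕ) =
        ∑ i : Fin p, (∑ β : Fin r → Fin p, c (Fin.cons i β) *
          ∏ j, y j.succ ^ (β j : ℕ)) * y 0 ^ (i : ℕ) := by
      rw [← (Fin.consEquiv (fun _ : Fin (r + 1) => Fin p)).sum_comp, Fintype.sum_prod_type]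
      refine Finset.sum_congr rfl fun i _ => ?_
      rw [Finset.sum_mul]
      refine Finset.sum_congr rfl fun β _ => ?_
      have e : (Fin.consEquiv (fun _ : Fin (r + 1) => Fin p)) (i, β) = Fin.cons i β := rfl
      rw [e, Fin.prod_univ_succ]
      simp only [Fin.cons_zero, Fin.cons_succ]
      ring
    rw [hsum] at h
    set a : Fin p → K := fun i => ∑ β : Fin r → Fin p, c (Fin.cons i β) *
          ∏ j, y j.succ ^ (β j : ℕ) with ha
    have hDprod : ∀ β : Fin r → Fin p, E 0 (∏ j, y j.succ ^ (β j : ℕ)) = 0 := by
      intro β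
      have : ∀ s : Finset (Fin r), E 0 (∏ j ∈ s, y j.succ ^ (β j : ℕ)) = 0 := by
        intro s
        induction s using Finset.induction_on with
        | empty => rw [Finset.prod_empty]; exact (E 0).map_one_eq_zero
        | insert j s hj ihs =>
          rw [Finset.prod_insert hj, (E 0).leibniz, ihs, (E 0).leibniz_pow, hE,
            if_neg (Fin.succ_ne_zero j).symm]
          simp
      exact this Finset.univ
    have hDa : ∀ i, E 0 (a i) = 0 := by
      intro i
      rw [ha]
      simp only
      rw [map_sum]
      refine Finset.sum_eq_zero fun β _ => ?_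
      rw [(E 0).leibniz, hDprod, hc, smul_zero, smul_zero, add_zero]
    have h0 : E 0 (y 0) = 1 := by rw [hE, if_pos rfl]
    have ha0 : ∀ i, a i = 0 := by
      have h1 := rep_unique_aux (D := E 0) p h0 p le_rfl
        (fun i => if h : i < p then a ⟨i, h⟩ else 0) (by
          intro i
          split_ifs with h
          · exact hDa _
          · exact map_zero _) (by
          rw [← Fin.sum_univ_eq_sum_range
            (fun i => (if h : i < p then a ⟨i, h⟩ else 0) * y 0 ^ i) p, ← h]
          refine Finset.sum_congr rfl fun i _ => ?_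
          rw [dif_pos i.2])
      intro i
      have h2 := h1 i i.2
      rwa [dif_pos i.2] at h2
    intro α
    have h1 := ih (fun j => y j.succ) (fun i => E i.succ) (fun i j => by
      rw [hE]
      simp only [Fin.succ_inj]) (fun β => c (Fin.cons (α 0) β)) (fun i β => hc _ _)
      (ha0 (α 0)) (Fin.tail α)
    rwa [Fin.cons_self_tail] at h1

/-- A system of `r` derivations over the subfield `L` dual to `r` elements, where `[K : L] = p ^ r`. -/
structure Dual (L : IntermediateField k K) (r : ℕ) (y : Fin r → K)
    (E : Fin r → Derivation k K K) : Prop where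
  kill : ∀ i, ∀ z ∈ L, E i z = 0
  dual : ∀ i j, E i (y j) = if i = j then 1 else 0

namespace Dual

variable {L : IntermediateField k K} {r : ℕ} {y : Fin r → K} {E : Fin r → Derivation k K K}
  (h : Dual L r y E)

include h

/-- Every element is a combination of monomials. -/
theorem exists_rep (p : ℕ) [hp : Fact p.Prime] [CharP k p] (hr : Module.finrank L K = p ^ r)
    (z : K) : ∃ c : (Fin r → Fin p) → K, (∀ α, c α ∈ L) ∧
      z = ∑ α, c α * ∏ j, y j ^ (α j : ℕ) := by
  classical
  have hli : LinearIndependent L (fun α : Fin r → Fin p => ∏ j, y j ^ (α j : ℕ)) := by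
    rw [Fintype.linearIndependent_iff]
    intro c hc α
    have h1 := indep_aux p r y E h.dual (fun α => (c α : K)) (fun i α => h.kill i _ (c α).2) (by
      rw [← hc]
      refine Finset.sum_congr rfl fun α _ => ?_
      rw [Algebra.smul_def]
      rfl) α
    exact Subtype.ext h1
  have hcard : Fintype.card (Fin r → Fin p) = Module.finrank L K := by
    rw [hr, Fintype.card_fun, Fintype.card_fin, Fintype.card_fin]
  have hfin : FiniteDimensional L K := by
    apply FiniteDimensional.of_finrank_pos
    rw [hr]
    exact pow_pos hp.out.pos r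
  let b := basisOfLinearIndependentOfCardEqFinrank hli hcard
  have hb : ∀ α, b α = ∏ j, y j ^ (α j : ℕ) := fun α => by
    rw [coe_basisOfLinearIndependentOfCardEqFinrank]
  refine ⟨fun α => (b.repr z α : K), fun α => (b.repr z α).2, ?_⟩
  conv_lhs => rw [← b.sum_repr z]
  refine Finset.sum_congr rfl fun α _ => ?_
  rw [Algebra.smul_def, hb]
  rfl

/-- A derivation which kills `L` and the `y j` vanishes. -/
theorem ext_zero (p : ℕ) [hp : Fact p.Prime] [CharP k p] (hr : Module.finrank L K = p ^ r)
    (D : Derivation k K K) (hD : ∀ z ∈ L, D z = 0) (hDy : ∀ j, D (y j) = 0) (z : K) :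
    D z = 0 := by
  obtain ⟨c, hc, rfl⟩ := h.exists_rep p hr z
  rw [map_sum]
  refine Finset.sum_eq_zero fun α _ => ?_
  have hprod : ∀ s : Finset (Fin r), D (∏ j ∈ s, y j ^ (α j : ℕ)) = 0 := by
    intro s
    induction s using Finset.induction_on with
    | empty => rw [Finset.prod_empty]; exact D.map_one_eq_zero
    | insert j s hj ihs =>
      rw [Finset.prod_insert hj, D.leibniz, ihs, D.leibniz_pow, hDy]
      simp
  rw [D.leibniz, hprod, hD _ (hc α), smul_zero, smul_zero, add_zero]

theorem comm (p : ℕ) [hp : Fact p.Prime] [CharP k p] (hr : Module.finrank L K = p ^ r)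
    (i j : Fin r) (z : K) : E i (E j z) = E j (E i z) := by
  have h1 := h.ext_zero p hr ⁅E i, E j⁆ (fun z hz => by
    rw [Derivation.commutator_apply, h.kill j z hz, h.kill i z hz, map_zero, map_zero, sub_zero])
    (fun l => by
      rw [Derivation.commutator_apply, h.dual, h.dual]
      split_ifs <;> simp) z
  rw [Derivation.commutator_apply] at h1
  exact sub_eq_zero.1 h1

theorem iter_eq_zero (p : ℕ) [hp : Fact p.Prime] [CharP k p] (hr : Module.finrank L K = p ^ r)
    (i : Fin r) (z : K) : (⇑(E i))^[p] z = 0 := by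
  classical
  obtain ⟨c, hc, rfl⟩ := h.exists_rep p hr z
  rw [iter_sum]
  refine Finset.sum_eq_zero fun α _ => ?_
  have hprod : ∀ s : Finset (Fin r), i ∉ s → E i (∏ j ∈ s, y j ^ (α j : ℕ)) = 0 := by
    intro s
    induction s using Finset.induction_on with
    | empty => intro _; rw [Finset.prod_empty]; exact (E i).map_one_eq_zero
    | insert j s hj ihs =>
      intro hi
      have hij : i ≠ j := fun h => hi (h ▸ Finset.mem_insert_self _ _)
      rw [Finset.prod_insert hj, (E i).leibniz, ihs (fun h => hi (Finset.mem_insert_of_mem h)),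
        (E i).leibniz_pow, h.dual, if_neg hij]
      simp
  rw [← Finset.mul_prod_erase _ _ (Finset.mem_univ i), iter_const_mul (E i) (h.kill i _ (hc α)),
    mul_comm (y i ^ (α i : ℕ)), iter_const_mul (E i) (hprod _ (Finset.notMem_erase i _)),
    iter_pow (by rw [h.dual, if_pos rfl]), Nat.descFactorial_of_lt (α i).2]
  simp

/-- The common constants. -/
theorem mem_of_const (p : ℕ) [hp : Fact p.Prime] [CharP k p] (hr : Module.finrank L K = p ^ r)
    (z : K) (hz : ∀ i, E i z = 0) : z ∈ L := by
  classical
  obtain ⟨c, hc, hcz⟩ := h.exists_rep p hr z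
  have hp0 : 0 < p := hp.out.pos
  let α0 : Fin r → Fin p := fun _ => ⟨0, hp0⟩
  have h1 := indep_aux p r y E h.dual (fun α => c α - if α = α0 then z else 0) (fun i α => by
    rw [map_sub, h.kill i _ (hc α)]
    split_ifs
    · rw [hz, sub_zero]
    · rw [map_zero, sub_zero]) (by
    simp only [sub_mul, Finset.sum_sub_distrib]
    rw [← hcz]
    simp only [ite_mul, zero_mul, Finset.sum_ite_eq', Finset.mem_univ, if_true]
    simp [α0]) α0
  rw [if_pos rfl, sub_eq_zero] at h1
  rw [← h1]
  exact hc α0

end Dual

end Pool.Agent.MP_b525bf_ag.H90
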