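import Pool.Agent.Lib.MP_b525bf_ag_h90.Minors
import Pool.Agent.Lib.MP_b525bf_ag_h90.Defs
import Pool.Agent.Lib.MP_b525bf_ag_h90.Extend
import Pool.Agent.Lib.MP_b525bf_ag_h5.Local
import Pool.Agent.Lib.MP_b525bf_ag.Iterate
import Pool.Agent.Lib.MP_b525bf_ag.Final
import Pool.Agent.Lib.MP_b525bf_ag_helper12.URees

/-!
Resolution of purely inseparable quotients with nondegenerate weighted leading forms.
-/

set_option autoImplicit false

namespace Pool.Agent.MP_b525bf_ag.H90

open Pool.Agent.MP_b525bf_ag Pool.Agent.MP_b525bf_ag_h5 AddMonoidAlgebra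

section kill

variable {k B K : Type} [Field k] [CommRing B] [Field K] [Algebra k K] [Algebra B K]

/-- A derivation of the field of fractions which kills `B ∩ L` kills `L`. -/
lemma kill_of_kill (p : ℕ) [hp : Fact p.Prime] [CharP k p] [IsDomain B] [IsFractionRing B K]
    (L : IntermediateField k K) (hL : ∀ x : K, x ^ p ∈ L) (DK : Derivation k K K)
    (h : ∀ b : B, algebraMap B K b ∈ L → DK (algebraMap B K b) = 0) (z : K) (hz : z ∈ L) :
    DK z = 0 := by
  obtain ⟨b, s, hs, rfl⟩ := IsFractionRing.div_surjective B z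
  have hs0 : algebraMap B K s ≠ 0 := by
    intro h0
    have := IsFractionRing.injective B K (h0.trans (map_zero _).symm)
    exact nonZeroDivisors.ne_zero hs this
  have h1 : algebraMap B K (b * s ^ (p - 1)) =
      (algebraMap B K s) ^ p * (algebraMap B K b / algebraMap B K s) := by
    have h1 : (algebraMap B K s) ^ p = (algebraMap B K s) ^ (p - 1) * algebraMap B K s := by
      rw [← pow_succ, Nat.sub_add_cancel hp.out.one_le]
    rw [h1, map_mul, map_pow]
    field_simp
  have h2 : DK (algebraMap B K (b * s ^ (p - 1))) = 0 := by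
    apply h
    rw [h1]
    exact L.mul_mem (hL _) hz
  rw [h1, D_const_mul (D_pow_char p DK _)] at h2
  exact (mul_eq_zero.1 h2).resolve_left (pow_ne_zero _ hs0)

end kill

section chart

variable {k : Type} [Field k] {B : Type} [CommRing B] [IsDomain B] [Algebra k B]

/-- Everything we need about a chart. -/
theorem chart_facts_R (p : ℕ) [Fact p.Prime] [CharP k p] (K : Type) [Field K] [Algebra k K]
    [Algebra B K] [IsScalarTower k B K] [IsFractionRing B K] (L : IntermediateField k K)
    (hL : ∀ x : K, x ^ p ∈ L) (A : Subalgebra k B) (hA : ∀ b : B, algebraMap B K b ∈ L → b ∈ A)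
    (r : ℕ) (G : Filt B) (hG1 : G.F 1 ≠ ⊥)
    (f : B) (hf0 : f ≠ 0) (hch : WeightedChart A r G.F f) :
    Algebra.FiniteType k ((idFam k K G).loc (map_mem_idFam_nonpos le_rfl f)).alg ∧
    Algebra.FormallySmooth k ((idFam k K G).loc (map_mem_idFam_nonpos le_rfl f)).alg ∧
    ∀ (q : Ideal ((idFam k K G).loc (map_mem_idFam_nonpos le_rfl f)).alg), q.IsPrime →
      ∀ (hT : (1 : K) ∈ ((idFam k K G).loc (map_mem_idFam_nonpos le_rfl f)).s (-1)),
      ((idFam k K G).loc (map_mem_idFam_nonpos le_rfl f)).el hT ∈ q →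
        ∀ (c : ℤ), 0 < c → ∀ (z : K)
          (hz : z ∈ ((idFam k K G).loc (map_mem_idFam_nonpos le_rfl f)).s c),
          ((idFam k K G).loc (map_mem_idFam_nonpos le_rfl f)).el hz ∉ q →
          ∃ (a : ℤ) (y : K) (hy : y ∈ ((idFam k K G).loc (map_mem_idFam_nonpos le_rfl f)).s a),
            ((idFam k K G).loc (map_mem_idFam_nonpos le_rfl f)).el hy ∉ q ∧
            DualChart (((idFam k K G).loc (map_mem_idFam_nonpos le_rfl f)).loc hy) L r := by
  have hinj : Function.Injective (algebraMap B K) := IsFractionRing.injective B K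
  let Bf := Localization.Away f
  have hle : Submonoid.powers f ≤ nonZeroDivisors B :=
    powers_le_nonZeroDivisors_of_noZeroDivisors hf0
  let i1 : Algebra Bf K := IsLocalization.localizationAlgebraOfSubmonoidLe Bf K
    (Submonoid.powers f) (nonZeroDivisors B) hle
  have i2 : IsScalarTower B Bf K := IsLocalization.localization_isScalarTower_of_submonoid_le Bf K
    (Submonoid.powers f) (nonZeroDivisors B) hle
  have i3 : IsScalarTower k Bf K := IsScalarTower.of_algebraMap_eq fun c => by
    rw [IsScalarTower.algebraMap_apply k B Bf, ← IsScalarTower.algebraMap_apply B Bf K,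
      ← IsScalarTower.algebraMap_apply]
  have i4 : IsFractionRing Bf K :=
    IsFractionRing.isFractionRing_of_isDomain_of_isLocalization (Submonoid.powers f) Bf K
  have hinjL : Function.Injective (algebraMap Bf K) := IsFractionRing.injective Bf K
  have hBL : Function.Injective (algebraMap B Bf) := by
    intro a b hab
    apply hinj
    rw [IsScalarTower.algebraMap_apply B Bf K, hab, ← IsScalarTower.algebraMap_apply]
  have : Nontrivial Bf := (algebraMap Bf K).domain_nontrivial
  obtain ⟨m, n, DL, e, x, w, g, hDL, hx, hF', hg, hlead', hrad'⟩ := hch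
  have hF : ∀ a, (G.F a).map (algebraMap B Bf) = wIdeal x w a := hF'
  have hlead : ∀ i j, DL i (x j) - MvPolynomial.eval x (g i j) ∈ wIdeal x w (w j + e i + 1) :=
    hlead'
  have hrad : ∀ j, 0 < w j → MvPolynomial.X j ∈
      (Ideal.span {z | ∃ (s : Fin r → Fin m) (t : Fin r → Fin n),
        z = (Matrix.of fun a b => g (s a) (t b)).det} ⊔ (cIdeal x w).map MvPolynomial.C).radical := by
    intro i hi
    rw [← wIdeal_one]
    exact hrad' i hi
  choose DK hDK using fun i => exists_extend (DL i) (nonZeroDivisors Bf) K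
  have hkill : ∀ i, ∀ z ∈ L, DK i z = 0 := by
    intro i
    refine kill_of_kill (B := B) p L hL (DK i) fun b hb => ?_
    rw [IsScalarTower.algebraMap_apply B Bf K, hDK, hDL i b (hA b hb), map_zero]
  have hc1 : cIdeal x w = (G.F 1).map (algebraMap B Bf) := by rw [← wIdeal_one, hF]
  have hw : ∃ i, 0 < w i := by
    by_contra hcon
    have h1 : cIdeal x w = ⊥ := by
      rw [cIdeal, Ideal.span_eq_bot]
      rintro _ ⟨i, hi, rfl⟩
      exact absurd ⟨i, hi⟩ hcon
    rw [hc1, Ideal.map_eq_bot_iff_of_injective hBL] at h1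
    exact hG1 h1
  have heq := loc_idFam_eq_wFam (k := k) (K := K) (G := G) hinj hf0 Bf x w hF
  obtain ⟨hft, hsm⟩ := wFam_smooth_fg (k := k) (K := K) hinjL x hx w hw
  have hδ : ∀ i, MapsD (wFam k K x w) (DK i) (e i) := by
    rintro i a _ ⟨b, hb, rfl⟩
    change DK i (algebraMap Bf K b) ∈ _
    rw [hDK]
    exact map_mem_wFam (wIdeal_anti (by omega) (D_wIdeal x hx (DL i) w (e i) (g i) (hg i)
      (hlead i) hb))
  refine ⟨by rw [heq]; exact hft, by rw [heq]; exact hsm, ?_⟩
  rw [heq]
  intro q hq hT ht c hc z hz hzq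
  obtain ⟨s, t, hM, hMq⟩ := prin_minor x w DL DK hDK e g hg r hrad hlead hδ q hq ht c hc z hz hzq
  refine ⟨_, _, det_mem (wFam k K x w) _ _ _ hM, hMq, ?_⟩
  refine exists_dualChart p (wFam k K x w) L (fun a => DK (s a)) (fun a => (e (s a) : ℤ))
    (fun a => hδ (s a)) (fun a => hkill (s a)) (fun b => algebraMap Bf K (x (t b)))
    (fun b => (w (t b) : ℤ)) (fun b => map_mem_wFam_nat (x_mem (t b))) _ ?_
  intro h0
  apply hMq
  rw [el_eq_zero _ _ h0]
  exact Ideal.zero_mem _

end chart

section descend

variable {k K : Type} [Field k] [Field K] [Algebra k K]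

/-- Charts descend from a localisation. -/
theorem descendR {N : Fam k K ℤ} {L : IntermediateField k K} {r : ℕ} {b : ℤ} {f : K}
    (hf : f ∈ N.s b) (hf0 : f ≠ 0) (hT : (1 : K) ∈ N.s (-1))
    (hP : ∀ (q : Ideal (N.loc hf).alg), q.IsPrime → ∀ (hT : (1 : K) ∈ (N.loc hf).s (-1)),
      (N.loc hf).el hT ∈ q → ∀ (c : ℤ), 0 < c → ∀ (z : K)
      (hz : z ∈ (N.loc hf).s c), (N.loc hf).el hz ∉ q →
      ∃ (a : ℤ) (y : K) (hy : y ∈ (N.loc hf).s a), (N.loc hf).el hy ∉ q ∧
        DualChart ((N.loc hf).loc hy) L r)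
    (q : Ideal N.alg) (hq : q.IsPrime) (hfq : N.el hf ∉ q) (hTq : N.el hT ∈ q)
    (c : ℤ) (hc : 0 < c) (z : K)
    (hz : z ∈ N.s c) (hzq : N.el hz ∉ q) :
    ∃ (a : ℤ) (y : K) (hy : y ∈ N.s a), N.el hy ∉ q ∧ DualChart (N.loc hy) L r := by
  let := (N.toLoc hf).toRingHom.toAlgebra
  have hloc := N.isLocalization_loc hf hf0
  have hmap : ∀ F : N.alg, algebraMap N.alg (N.loc hf).alg F = N.toLoc hf F := fun _ => rfl
  have hdis : Disjoint (Submonoid.powers (N.el hf) : Set N.alg) (q : Set N.alg) := by
    rw [Set.disjoint_left]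
    rintro _ ⟨m, rfl⟩ h
    exact hfq (hq.mem_of_pow_mem m h)
  have hq' : (q.map (algebraMap N.alg (N.loc hf).alg)).IsPrime :=
    IsLocalization.isPrime_of_isPrime_disjoint (Submonoid.powers (N.el hf)) _ q hq hdis
  have hcm : (q.map (algebraMap N.alg (N.loc hf).alg)).comap (algebraMap N.alg (N.loc hf).alg) =
      q := IsLocalization.under_map_of_isPrime_disjoint (Submonoid.powers (N.el hf)) _ hq hdis
  have hmem : ∀ F : N.alg, N.toLoc hf F ∈ q.map (algebraMap N.alg (N.loc hf).alg) ↔ F ∈ q := by
    intro F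
    conv_rhs => rw [← hcm]
    rfl
  obtain ⟨a, y, hy, hyq, hd⟩ := hP _ hq' (N.le_loc hf _ hT)
    (by rw [← Fam.toLoc_el, hmem]; exact hTq) c hc z (N.le_loc hf c hz) (by
      rw [← Fam.toLoc_el, hmem]; exact hzq)
  have hy2 := hy
  obtain ⟨m, hm⟩ := hy2
  refine ⟨_, _, N.mul' hf hm, ?_, ?_⟩
  · rw [← Fam.el_mul N hf hm]
    intro h
    rcases hq.mem_or_mem h with h1 | h1
    · exact hfq h1
    · rw [← hmem, Fam.toLoc_el] at h1
      have h2 : (N.loc hf).el (N.le_loc hf _ hm) =
          (N.loc hf).el (N.le_loc hf _ hf) ^ m * (N.loc hf).el hy := by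
        rw [Fam.el_pow, Fam.el_mul]
      rw [h2] at h1
      rcases hq'.mem_or_mem h1 with h3 | h3
      · have h4 := hq'.mem_of_pow_mem _ h3
        rw [← Fam.toLoc_el N hf hf, hmem] at h4
        exact hfq h4
      · exact hyq h3
  · rw [loc_two N hf hy hm]
    exact hd

end descend

section main

variable {k : Type} [Field k] {B : Type} [CommRing B] [IsDomain B] [Algebra k B]

/-- The initial data of a filtration which is locally weighted. -/
theorem initR_idFam (p : ℕ) [hp : Fact p.Prime] [CharP k p] [Algebra.Smooth k B]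
    (K : Type) [Field K] [Algebra k K] [Algebra B K] [IsScalarTower k B K]
    [IsFractionRing B K] (L : IntermediateField k K) (hL : ∀ x : K, x ^ p ∈ L) (r : ℕ)
    (hr : Module.finrank L K = p ^ r)
    (A : Subalgebra k B) (hA : ∀ b : B, algebraMap B K b ∈ L → b ∈ A)
    (G : Filt B) (hG1 : G.F 1 ≠ ⊥)
    (hreg : ∀ P : Ideal B, P.IsPrime → ¬G.F 1 ≤ P →
      ∃ (D : Fin r → Derivation k B B) (b : Fin r → B), (∀ i, ∀ a ∈ A, D i a = 0) ∧
        (Matrix.of fun i j => D i (b j)).det ∉ P)
    (hch : ∀ P : Ideal B, P.IsPrime → G.F 1 ≤ P → ∃ f : B, f ∉ P ∧ WeightedChart A r G.F f) :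
    InitR (idFam k K G) L r p := by
  classical
  have hinj : Function.Injective (algebraMap B K) := IsFractionRing.injective B K
  have hne : ∀ {P : Ideal B} {f : B}, f ∉ P → f ≠ 0 := by
    rintro P f hf rfl
    exact hf P.zero_mem
  -- charts away from the centre
  have haway : ∀ h : B, h ≠ 0 → h ∈ G.F 1 →
      Algebra.FiniteType k ((idFam k K G).loc (map_mem_idFam_nonpos le_rfl h)).alg ∧
      Algebra.FormallySmooth k ((idFam k K G).loc (map_mem_idFam_nonpos le_rfl h)).alg := by
    intro h hh0 hh1
    let L := Localization.Away h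
    have hle : Submonoid.powers h ≤ nonZeroDivisors B :=
      powers_le_nonZeroDivisors_of_noZeroDivisors hh0
    let i1 : Algebra L K := IsLocalization.localizationAlgebraOfSubmonoidLe L K
      (Submonoid.powers h) (nonZeroDivisors B) hle
    have i2 : IsScalarTower B L K := IsLocalization.localization_isScalarTower_of_submonoid_le L K
      (Submonoid.powers h) (nonZeroDivisors B) hle
    have i3 : IsScalarTower k L K := IsScalarTower.of_algebraMap_eq fun c => by
      rw [IsScalarTower.algebraMap_apply k B L, ← IsScalarTower.algebraMap_apply B L K,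
        ← IsScalarTower.algebraMap_apply]
    have i4 : IsFractionRing L K :=
      IsFractionRing.isFractionRing_of_isDomain_of_isLocalization (Submonoid.powers h) L K
    have hinjL : Function.Injective (algebraMap L K) := IsFractionRing.injective L K
    rw [loc_idFam_eq_const (k := k) (K := K) (G := G) hinj hh0 hh1 L]
    have h1 : Algebra.Smooth B L := Algebra.Smooth.of_isLocalization_Away h
    have h2 : Algebra.Smooth k L := Algebra.Smooth.comp k B L
    refine smooth_constFam _ ?_
    exact Algebra.Smooth.of_equiv (AlgEquiv.ofInjective (IsScalarTower.toAlgHom k L K) hinjL)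
  obtain ⟨hft, hsm⟩ := fg_smooth_idFam (k := k) (K := K) (G := G) (fun P hP => by
    by_cases hle : G.F 1 ≤ P
    · obtain ⟨f, hfP, hc⟩ := hch P hP hle
      obtain ⟨h1, h2, -⟩ := chart_facts_R p K L hL A hA r G hG1 f (hne hfP) hc
      exact ⟨f, hfP, hne hfP, h1, h2⟩
    · obtain ⟨h, hh1, hhP⟩ := SetLike.not_le_iff_exists.1 hle
      obtain ⟨h2, h3⟩ := haway h (hne hhP) hh1
      exact ⟨h, hhP, hne hhP, h2, h3⟩) hinj
  have hfg : (idFam k K G).alg.FG := (Subalgebra.fg_iff_finiteType _).2 hft
  have hT : (1 : K) ∈ (idFam k K G).s (-1) := one_mem_idFam (by norm_num)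
  refine ⟨hL, hr, fun d hd => one_mem_idFam hd, hfg, ?_, ?_, ?_⟩
  · intro d hd z hz hz0
    exact Fam.formallySmooth_loc _ hz hz0 hsm
  · intro q hq c hc z hz hzq
    let β : B →ₐ[k] (idFam k K G).alg :=
      baseMap (idFam k K G) B (fun b => map_mem_idFam_nonpos le_rfl b)
    have hβ : ∀ b, β b = (idFam k K G).el (map_mem_idFam_nonpos le_rfl b) := fun _ => rfl
    have hqc : (q.comap β).IsPrime := Ideal.comap_isPrime _ q
    by_cases hTq : (idFam k K G).el hT ∈ q
    · have hle : G.F 1 ≤ q.comap β := by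
        intro h hh
        rw [Ideal.mem_comap, hβ]
        have h1 : algebraMap B K h ∈ (idFam k K G).s (0 + (1 : ℕ) : ℤ) := by
          rw [zero_add]
          exact map_mem_idFam_nat hh
        have h2 := el_T_mul (idFam k K G) (e := 1) hT h1 (map_mem_idFam_nonpos le_rfl h)
        rw [← h2]
        exact Ideal.mul_mem_right _ _ hTq
      obtain ⟨f, hfP, hch'⟩ := hch _ hqc hle
      obtain ⟨-, -, h1⟩ := chart_facts_R p K L hL A hA r G hG1 f (hne hfP) hch'
      exact descendR _ (fun h0 => hne hfP (hinj (by rw [h0, map_zero]))) hT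
        h1 q hq (by rw [← hβ]; exact hfP) hTq c hc z hz hzq
    · -- outside the exceptional divisor
      have hle : ¬G.F 1 ≤ q.comap β := by
        intro hle
        obtain ⟨b, hb, rfl⟩ := hz
        have hb1 : b ∈ G.F 1 := G.anti (by omega) hb
        have h1 := hle hb1
        rw [Ideal.mem_comap, hβ] at h1
        have hbc : algebraMap B K b ∈ (idFam k K G).s (0 + (c.toNat : ℕ) : ℤ) := by
          rw [zero_add]
          exact map_mem_idFam_nat hb
        have hTc : (1 : K) ∈ (idFam k K G).s (-(c.toNat : ℤ)) := one_mem_idFam (by omega)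
        have h2 := el_T_mul (idFam k K G) (e := c.toNat) hTc hbc (map_mem_idFam_nonpos le_rfl b)
        rw [← h2] at h1
        rcases hq.mem_or_mem h1 with h3 | h3
        · apply hTq
          refine hq.mem_of_pow_mem c.toNat ?_
          rw [Fam.el_pow]
          convert h3 using 1
          exact Fam.el_eq _ _ _ (by simp) (one_pow _)
        · apply hzq
          convert h3 using 1
          exact Fam.el_eq _ _ _ (by omega) rfl
      obtain ⟨D, b, hD, hdet⟩ := hreg _ hqc hle
      choose DK hDK using fun i => exists_extend (D i) (nonZeroDivisors B) K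
      have hkill : ∀ i, ∀ z ∈ L, DK i z = 0 := by
        intro i
        refine kill_of_kill (B := B) p L hL (DK i) fun b hb => ?_
        rw [hDK, hD i b (hA b hb), map_zero]
      set N1 := (idFam k K G).loc hT with hN1
      have hbase : ∀ (a : ℤ) (b : B), algebraMap B K b ∈ N1.s a := by
        intro a b
        refine ⟨a.toNat, ?_⟩
        rw [one_pow, one_mul]
        exact map_mem_idFam_nonpos (by simp only [nsmul_eq_mul]; omega) b
      have hmaps : ∀ i, MapsD N1 (DK i) 0 := by
        rintro i a y ⟨m, hm⟩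
        rw [one_pow, one_mul] at hm
        obtain ⟨b, -, rfl⟩ := hm
        change DK i (algebraMap B K b) ∈ _
        rw [hDK]
        exact hbase _ _
      have hMe : (Matrix.of fun i j => DK i (algebraMap B K (b j))).det =
          algebraMap B K (Matrix.of fun i j => D i (b j)).det := by
        rw [RingHom.map_det]
        congr 1
        ext i j
        exact hDK _ _
      have hdm : (Matrix.of fun i j => DK i (algebraMap B K (b j))).det ∈
          N1.s (∑ i, (fun _ : Fin r => (0 : ℤ)) i + ∑ i, (fun _ : Fin r => (0 : ℤ)) i) := by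
        rw [hMe]
        exact hbase _ _
      have hd0 : (Matrix.of fun i j => DK i (algebraMap B K (b j))).det ≠ 0 := by
        rw [hMe]
        intro h0
        exact hne hdet (hinj (h0.trans (map_zero _).symm))
      have hchart := exists_dualChart p N1 L DK (fun _ => 0) (fun i => hmaps i) hkill
        (fun j => algebraMap B K (b j)) (fun _ => 0) (fun j => hbase _ _) hdm hd0
      have hm : (1 : K) ^ 0 * (Matrix.of fun i j => DK i (algebraMap B K (b j))).det ∈
          (idFam k K G).s (0 • (-1) + (∑ i, (fun _ : Fin r => (0 : ℤ)) i +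
            ∑ i, (fun _ : Fin r => (0 : ℤ)) i)) := by
        rw [one_pow, one_mul, hMe]
        exact map_mem_idFam_nonpos (by simp) _
      refine ⟨_, _, (idFam k K G).mul' hT hm, ?_, ?_⟩
      · rw [← Fam.el_mul _ hT hm]
        intro h
        rcases hq.mem_or_mem h with h1 | h1
        · exact hTq h1
        · apply hdet
          rw [Ideal.mem_comap, hβ]
          convert h1 using 1
          exact Fam.el_eq _ _ _ (by simp) (by rw [one_pow, one_mul, hMe])
      · rw [loc_two (idFam k K G) hT hdm hm]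
        exact hchart
  · obtain ⟨h, hh, hh0⟩ := Submodule.exists_mem_ne_zero_of_ne_bot hG1
    refine ⟨1, one_pos, algebraMap B K h, map_mem_idFam hh, fun h0 => hh0 (hinj ?_)⟩
    rw [h0, map_zero]

/-- Resolution of purely inseparable quotients of exponent one with nondegenerate weighted leading
forms. -/
theorem hasResolution_intersection (p : ℕ) [hp : Fact p.Prime] [CharP k p] [Algebra.Smooth k B]
    (L : IntermediateField k (FractionRing B)) (hL : ∀ x : FractionRing B, x ^ p ∈ L) (r : ℕ)
    (hr : Module.finrank L (FractionRing B) = p ^ r)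
    (F : ℕ → Ideal B) (hF0 : F 0 = ⊤)
    (hF : Antitone F) (hmul : ∀ a b, F a * F b ≤ F (a + b)) (hF1 : F 1 ≠ ⊥)
    (hreg : ∀ P : Ideal B, P.IsPrime → ¬F 1 ≤ P →
      ∃ (D : Fin r → Derivation k B B) (b : Fin r → B), (∀ i, ∀ a ∈ intersection L, D i a = 0) ∧
        (Matrix.of fun i j => D i (b j)).det ∉ P)
    (hch : ∀ P : Ideal B, P.IsPrime → F 1 ≤ P →
      ∃ f : B, f ∉ P ∧ WeightedChart (intersection L) r F f) :
    HasResolution k (intersection L) := by
  let K := FractionRing B
  let G : Filt B := ⟨F, hF0, hF, hmul⟩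
  have hA : ∀ b : B, algebraMap B K b ∈ L → b ∈ intersection L := fun b hb => hb
  obtain ⟨w, hw, hgood⟩ := (initR_idFam p K L hL r hr (intersection L) hA G hF1 hreg hch).good
  obtain ⟨M, hM, hM0⟩ := Good.exists_one_aux
    (fun M w hw hfg hsm => Fam.formallySmooth_wrees M w hw hfg hsm) w hw _ hgood
  have hinj : Function.Injective (algebraMap B K) := IsFractionRing.injective B K
  have hinjA : Function.Injective (algebraMap (intersection L) K) := by
    have : (algebraMap (intersection L) K : (intersection L) → K) =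
        (algebraMap B K) ∘ (Subtype.val) := rfl
    rw [this]
    exact hinj.comp Subtype.val_injective
  refine hasResolution_of_good_one k (intersection L) K hinjA M hM fun z => ?_
  rw [hM0, mem_subFam]
  constructor
  · rintro ⟨⟨b, -, rfl⟩, hz⟩
    exact ⟨⟨b, hz⟩, rfl⟩
  · rintro ⟨b, rfl⟩
    exact ⟨map_mem_idFam_nonpos le_rfl (b : B), b.2⟩

end main

end Pool.Agent.MP_b525bf_ag.H90
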