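import Pool.Agent.Lib.MP_b525bf_ag_h90.PClosed
import Pool.Agent.Lib.MP_b525bf_ag_helper53.GoodFix

/-!
Families of constants of a homogeneous derivation.
-/

set_option autoImplicit false
set_option linter.style.haveILetI false

namespace Pool.Agent.MP_b525bf_ag.H90

open AddMonoidAlgebra

variable {k K : Type} [Field k] [Field K] [Algebra k K]

/-- The operator `x T ^ a ↦ D x T ^ (a + d)`. -/
noncomputable def gr (D : Derivation k K K) (d : ℤ) :
    AddMonoidAlgebra K ℤ →ₗ[k] AddMonoidAlgebra K ℤ :=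
  (coeffLinearEquiv k).symm.toLinearMap ∘ₗ Finsupp.lmapDomain K k (fun a : ℤ => a + d) ∘ₗ
    Finsupp.mapRange.linearMap (D : K →ₗ[k] K) ∘ₗ (coeffLinearEquiv k).toLinearMap

lemma coeff_gr (D : Derivation k K K) (d : ℤ) (F : AddMonoidAlgebra K ℤ) (a : ℤ) :
    (gr D d F).coeff (a + d) = D (F.coeff a) := by
  change (Finsupp.mapDomain (fun a : ℤ => a + d)
    (Finsupp.mapRange.linearMap (D : K →ₗ[k] K) F.coeff)) (a + d) = _
  rw [Finsupp.mapDomain_apply (f := fun a : ℤ => a + d) (fun a b h => by simpa using h)]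
  rfl

lemma coeff_gr' (D : Derivation k K K) (d : ℤ) (F : AddMonoidAlgebra K ℤ) (a : ℤ) :
    (gr D d F).coeff a = D (F.coeff (a - d)) := by
  have := coeff_gr D d F (a - d)
  rwa [sub_add_cancel] at this

lemma gr_single (D : Derivation k K K) (d a : ℤ) (x : K) :
    gr D d (single a x) = single (a + d) (D x) := by
  classical
  apply AddMonoidAlgebra.ext
  ext b
  rw [coeff_gr', coeff_single, coeff_single, Finsupp.single_apply, Finsupp.single_apply]
  by_cases h : a + d = b
  · rw [if_pos h, if_pos (by omega)]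
  · rw [if_neg h, if_neg (by omega), map_zero]

lemma gr_leibniz (D : Derivation k K K) (d : ℤ) (F G : AddMonoidAlgebra K ℤ) :
    gr D d (F * G) = F * gr D d G + G * gr D d F := by
  induction F using AddMonoidAlgebra.induction_linear with
  | zero => simp
  | add F F' h h' => rw [add_mul, map_add, h, h', map_add]; ring
  | single a x =>
    induction G using AddMonoidAlgebra.induction_linear with
    | zero => simp
    | add G G' h h' => rw [mul_add, map_add, h, h', map_add]; ring
    | single b y =>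
      rw [single_mul_single, gr_single, gr_single, gr_single, single_mul_single,
        single_mul_single, D.leibniz, smul_eq_mul, smul_eq_mul,
        show b + (a + d) = a + b + d by ring, show a + (b + d) = a + b + d by ring, ← single_add]

/-- `D` maps the degree `a` part of the family into the degree `a + d` part. -/
def MapsD (N : Fam k K ℤ) (D : Derivation k K K) (d : ℤ) : Prop :=
  ∀ (a : ℤ) (x : K), x ∈ N.s a → D x ∈ N.s (a + d)

lemma D_const_mul {D : Derivation k K K} {f : K} (hf : D f = 0) (y : K) :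
    D (f * y) = f * D y := by
  rw [D.leibniz, hf, smul_zero, add_zero, smul_eq_mul]

lemma D_pow_const {D : Derivation k K K} {f : K} (hf : D f = 0) (m : ℕ) : D (f ^ m) = 0 := by
  rw [D.leibniz_pow, hf, smul_zero, smul_zero]

lemma D_pow_char (p : ℕ) [CharP k p] (D : Derivation k K K) (x : K) : D (x ^ p) = 0 := by
  have h1 : ((p : ℕ) : K) = 0 := by
    rw [← map_natCast (algebraMap k K), CharP.cast_eq_zero k p, map_zero]
  rw [D.leibniz_pow, nsmul_eq_mul, h1, zero_mul]

namespace MapsD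

variable {N : Fam k K ℤ} {D : Derivation k K K} {d : ℤ} (h : MapsD N D d)

include h

lemma iter_mem {a : ℤ} {x : K} (hx : x ∈ N.s a) (m : ℕ) : (⇑D)^[m] x ∈ N.s (a + m * d) := by
  induction m with
  | zero => simpa using hx
  | succ m ih =>
    rw [Function.iterate_succ', Function.comp_apply]
    have := h _ _ ih
    rwa [show a + (m : ℤ) * d + d = a + ((m + 1 : ℕ) : ℤ) * d by push_cast; ring] at this

lemma loc {a : ℤ} {x : K} (hx : x ∈ N.s a) (hDx : D x = 0) : MapsD (N.loc hx) D d := by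
  rintro b y ⟨m, hm⟩
  refine ⟨m, ?_⟩
  have h1 := h _ _ hm
  rw [D_const_mul (D_pow_const hDx m), add_assoc] at h1
  exact h1

/-- The homogeneous derivation of `N.alg`. -/
noncomputable def res : Derivation k N.alg N.alg :=
  Derivation.mk'
    { toFun := fun F => ⟨gr D d F, fun a => by
        rw [coeff_gr']
        have := h _ _ (F.2 (a - d))
        rwa [sub_add_cancel] at this⟩
      map_add' := fun F G => Subtype.ext (by
        change gr D d ((F : AddMonoidAlgebra K ℤ) + G) = gr D d F + gr D d G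
        exact map_add _ _ _)
      map_smul' := fun c F => Subtype.ext (by
        change gr D d (c • (F : AddMonoidAlgebra K ℤ)) = c • gr D d F
        exact map_smul _ _ _) }
    (fun F G => Subtype.ext (gr_leibniz D d F G))

lemma coe_res (F : N.alg) : ((h.res F : N.alg) : AddMonoidAlgebra K ℤ) = gr D d F := rfl

lemma res_el {a : ℤ} {x : K} (hx : x ∈ N.s a) : h.res (N.el hx) = N.el (h a x hx) := by
  apply Subtype.ext
  rw [coe_res, Fam.coe_el, Fam.coe_el, gr_single]

lemma iter_res_el (m : ℕ) {a : ℤ} {x : K} (hx : x ∈ N.s a) :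
    (⇑h.res)^[m] (N.el hx) = N.el (h.iter_mem hx m) := by
  induction m with
  | zero => exact Fam.el_eq _ _ _ (by simp) rfl
  | succ m ih =>
    rw [Function.iterate_succ', Function.comp_apply, ih, res_el]
    refine Fam.el_eq _ _ _ (by push_cast; ring) ?_
    rw [Function.iterate_succ', Function.comp_apply]

lemma iter_res (p : ℕ) (hD : ∀ x, (⇑D)^[p] x = 0) (F : N.alg) : (⇑h.res)^[p] F = 0 := by
  refine Fam.alg_induction N (p := fun F => (⇑h.res)^[p] F = 0) (iter_zero _ _) ?_ ?_ F
  · intro F G hF hG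
    rw [iter_add, hF, hG, add_zero]
  · intro a x hx
    rw [iter_res_el]
    apply Subtype.ext
    rw [Fam.coe_el, hD x]
    exact AddMonoidAlgebra.single_zero _

end MapsD

/-- The family of constants. -/
def kerFam (N : Fam k K ℤ) (D : Derivation k K K) : Fam k K ℤ where
  s a :=
    { carrier := {x | x ∈ N.s a ∧ D x = 0}
      add_mem' := fun hx hy => ⟨Submodule.add_mem _ hx.1 hy.1, by rw [map_add, hx.2, hy.2, add_zero]⟩
      zero_mem' := ⟨Submodule.zero_mem _, map_zero _⟩
      smul_mem' := fun c x hx => ⟨Submodule.smul_mem _ c hx.1, by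
        rw [D.map_smul, hx.2, smul_zero]⟩ }
  one' := ⟨N.one', D.map_one_eq_zero⟩
  mul' := fun hx hy => ⟨N.mul' hx.1 hy.1, by
    rw [D.leibniz, hx.2, hy.2, smul_zero, smul_zero, add_zero]⟩

lemma mem_kerFam {N : Fam k K ℤ} {D : Derivation k K K} {a : ℤ} {x : K} :
    x ∈ (kerFam N D).s a ↔ x ∈ N.s a ∧ D x = 0 := Iff.rfl

lemma kerFam_loc (N : Fam k K ℤ) (D : Derivation k K K) {a : ℤ} {x : K}
    (hx : x ∈ (kerFam N D).s a) (hx0 : x ≠ 0) :
    (kerFam N D).loc hx = kerFam (N.loc hx.1) D := by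
  apply Fam.ext
  intro b
  ext y
  rw [mem_kerFam, Fam.mem_loc, Fam.mem_loc]
  constructor
  · rintro ⟨m, hm⟩
    refine ⟨⟨m, hm.1⟩, ?_⟩
    have := hm.2
    rw [D_const_mul (D_pow_const hx.2 m)] at this
    exact (mul_eq_zero.1 this).resolve_left (pow_ne_zero m hx0)
  · rintro ⟨⟨m, hm⟩, hy⟩
    exact ⟨m, hm, by rw [D_const_mul (D_pow_const hx.2 m), hy, mul_zero]⟩

/-- Proportional derivations have the same constants. -/
lemma kerFam_smul (N : Fam k K ℤ) (D : Derivation k K K) {z : K} (hz : z ≠ 0) :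
    kerFam N (z • D) = kerFam N D := by
  apply Fam.ext
  intro a
  ext y
  rw [mem_kerFam, mem_kerFam]
  have h1 : (z • D) y = z * D y := rfl
  rw [h1, mul_eq_zero, or_iff_right hz]

/-- The inclusion of the constants. -/
noncomputable def kerIncl (N : Fam k K ℤ) (D : Derivation k K K) :
    (kerFam N D).alg →ₐ[k] N.alg :=
  Subalgebra.inclusion (H53.alg_mono fun _ _ hx => hx.1)

lemma coe_kerIncl (N : Fam k K ℤ) (D : Derivation k K K) (F : (kerFam N D).alg) :
    ((kerIncl N D F : N.alg) : AddMonoidAlgebra K ℤ) = F := rfl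

lemma kerIncl_injective (N : Fam k K ℤ) (D : Derivation k K K) :
    Function.Injective (kerIncl N D) :=
  Subalgebra.inclusion_injective _

section

variable {N : Fam k K ℤ} {D : Derivation k K K} {d : ℤ} (h : MapsD N D d)

include h

lemma exists_of_const (F : N.alg) (hF : h.res F = 0) : ∃ G, kerIncl N D G = F := by
  refine ⟨⟨F, fun a => ⟨F.2 a, ?_⟩⟩, Subtype.ext rfl⟩
  rw [← coeff_gr D d, ← h.coe_res F, hF]
  rfl

lemma kerIncl_const (G : (kerFam N D).alg) : h.res (kerIncl N D G) = 0 := by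
  apply Subtype.ext
  rw [h.coe_res, coe_kerIncl]
  apply AddMonoidAlgebra.ext
  ext a
  rw [coeff_gr']
  exact (G.2 (a - d)).2

/-- The algebra of constants as the constants of the algebra. -/
noncomputable def kerEquiv : (kerFam N D).alg ≃ₐ[k] constAlg h.res :=
  AlgEquiv.ofBijective ((kerIncl N D).codRestrict (constAlg h.res)
    (fun G => kerIncl_const h G)) (by
    constructor
    · intro F G hFG
      exact kerIncl_injective N D (congrArg Subtype.val hFG)
    · rintro ⟨F, hF⟩
      obtain ⟨G, hG⟩ := exists_of_const h F hF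
      exact ⟨G, Subtype.ext hG⟩)

theorem smooth_ker (p : ℕ) [Fact p.Prime] [CharP k p] (hD : ∀ x, (⇑D)^[p] x = 0)
    (hsm : Algebra.FormallySmooth k N.alg) {y : K} (hy : y ∈ N.s (-d)) (hy1 : D y = 1) :
    Algebra.FormallySmooth k (kerFam N D).alg := by
  have h1 : Algebra.FormallySmooth k (constAlg h.res) := by
    refine formallySmooth_const p h.res (h.iter_res p hD) (N.el hy) ?_
    rw [h.res_el, ← Fam.el_one]
    exact Fam.el_eq _ _ _ (by ring) hy1
  exact Algebra.FormallySmooth.of_equiv (A := constAlg h.res) (B := (kerFam N D).alg)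
    (kerEquiv h).symm

lemma pow_char_const (p : ℕ) [Fact p.Prime] [CharP k p] (F : N.alg) : h.res (F ^ p) = 0 := by
  have h1 : ((p : ℕ) : N.alg) = 0 := by
    rw [← map_natCast (algebraMap k N.alg), CharP.cast_eq_zero k p, map_zero]
  rw [h.res.leibniz_pow, nsmul_eq_mul, h1, zero_mul]

theorem ker_isIntegral (p : ℕ) [hp : Fact p.Prime] [CharP k p] :
    (kerIncl N D).toRingHom.IsIntegral := by
  intro F
  obtain ⟨G, hG⟩ := exists_of_const h (F ^ p) (pow_char_const h p F)
  refine ⟨Polynomial.X ^ p - Polynomial.C G, Polynomial.monic_X_pow_sub_C G hp.out.ne_zero, ?_⟩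
  rw [Polynomial.eval₂_sub, Polynomial.eval₂_pow, Polynomial.eval₂_X, Polynomial.eval₂_C]
  exact sub_eq_zero.2 hG.symm

theorem ker_fg (p : ℕ) [Fact p.Prime] [CharP k p] (hN : N.alg.FG) : (kerFam N D).alg.FG := by
  letI := (kerIncl N D).toRingHom.toAlgebra
  haveI : IsScalarTower k (kerFam N D).alg N.alg := IsScalarTower.of_algebraMap_eq fun r => rfl
  haveI : Algebra.IsIntegral (kerFam N D).alg N.alg :=
    algebraMap_isIntegral_iff.1 (ker_isIntegral h p)
  haveI : Algebra.FiniteType k N.alg := Subalgebra.fg_iff_finiteType _ |>.1 hN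
  haveI : Algebra.FiniteType (kerFam N D).alg N.alg :=
    Algebra.FiniteType.of_restrictScalars_finiteType k _ _
  haveI : Module.Finite (kerFam N D).alg N.alg := Algebra.IsIntegral.finite
  have := fg_of_fg_of_fg k (kerFam N D).alg N.alg Algebra.FiniteType.out Module.Finite.fg_top
    (kerIncl_injective N D)
  exact (Subalgebra.fg_top _).1 this

lemma exists_prime_over (p : ℕ) [Fact p.Prime] [CharP k p] (q : Ideal (kerFam N D).alg)
    [q.IsPrime] : ∃ Q : Ideal N.alg, Q.IsPrime ∧ ∀ {b : ℤ} {y : K} (hy : y ∈ (kerFam N D).s b),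
      (kerFam N D).el hy ∈ q ↔ N.el hy.1 ∈ Q := by
  obtain ⟨Q, hQprime, hQ⟩ : ∃ Q : Ideal N.alg, Q.IsPrime ∧
      Q.comap (kerIncl N D).toRingHom = q := by
    letI := (kerIncl N D).toRingHom.toAlgebra
    haveI : Algebra.IsIntegral (kerFam N D).alg N.alg :=
      algebraMap_isIntegral_iff.1 (ker_isIntegral h p)
    refine Ideal.exists_ideal_over_prime_of_isIntegral_of_isDomain (S := N.alg) q ?_
    have h1 : RingHom.ker (algebraMap (kerFam N D).alg N.alg) = ⊥ :=
      (RingHom.injective_iff_ker_eq_bot _).1 (kerIncl_injective N D)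
    rw [h1]
    exact bot_le
  refine ⟨Q, hQprime, fun {b y} hy => ?_⟩
  rw [← hQ, Ideal.mem_comap]
  exact Iff.rfl

end

/-! ### Good families of constants -/

/-- A graded algebra with a homogeneous `p`-closed derivation without zeros outside the irrelevant
locus, which is smooth outside the irrelevant locus. -/
structure InitG (N : Fam k K ℤ) (D : Derivation k K K) (d : ℤ) (p : ℕ) : Prop where
  maps : MapsD N D d
  pclosed : PC p D
  one_neg : ∀ c : ℤ, c ≤ 0 → (1 : K) ∈ N.s c
  fg : N.alg.FG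
  smooth : ∀ c : ℤ, 0 < c → ∀ (x : K) (hx : x ∈ N.s c), x ≠ 0 →
    Algebra.FormallySmooth k (N.loc hx).alg
  prin : ∀ (Q : Ideal N.alg), Q.IsPrime → ∀ (c : ℤ), 0 < c → ∀ (x : K) (hx : x ∈ N.s c),
    N.el hx ∉ Q → ∃ (a : ℤ) (e : K) (he : e ∈ N.s a), N.el (maps a e he) ∉ Q
  ne : ∃ c : ℤ, 0 < c ∧ ∃ x ∈ N.s c, x ≠ 0

namespace InitG

variable {N : Fam k K ℤ} {D : Derivation k K K} {d : ℤ} {p : ℕ} [hp : Fact p.Prime]
  (h : InitG N D d p)

include h

/-- The charts. -/
lemma exists_chart [CharP k p] (q : Ideal (kerFam N D).alg) [q.IsPrime] {c : ℤ} (hc : 0 < c)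
    {x : K} (hx : x ∈ (kerFam N D).s c) (hx0 : x ≠ 0) (hxq : (kerFam N D).el hx ∉ q) :
    ∃ (b : ℤ) (y : K) (hy : y ∈ (kerFam N D).s b), (kerFam N D).el hy ∉ q ∧
      Algebra.FormallySmooth k ((kerFam N D).loc ((kerFam N D).mul' hx hy)).alg := by
  classical
  obtain ⟨Q, hQprime, hincl⟩ := exists_prime_over h.maps p q
  have hxQ : N.el hx.1 ∉ Q := fun hmem => hxq ((hincl hx).2 hmem)
  obtain ⟨a, e, heN, hzQ⟩ := h.prin Q hQprime c hc x hx.1 hxQ
  have hz := h.maps a e heN
  have hz0 : D e ≠ 0 := by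
    intro h0
    apply hzQ
    have : N.el (h.maps a e heN) = 0 := by
      apply Subtype.ext
      rw [Fam.coe_el, h0]
      exact AddMonoidAlgebra.single_zero _
    rw [this]
    exact Ideal.zero_mem _
  have hzp : (D e) ^ p ∈ (kerFam N D).s (p • (a + d)) := ⟨N.pow' hz p, D_pow_char p D _⟩
  refine ⟨_, (D e) ^ p, hzp, fun hmem => ?_, ?_⟩
  · have h1 := (hincl hzp).1 hmem
    rw [← Fam.el_pow N hz p] at h1
    exact hzQ (hQprime.mem_of_pow_mem _ h1)
  have hxz0 : x * (D e) ^ p ≠ 0 := mul_ne_zero hx0 (pow_ne_zero _ hz0)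
  set hxz := (kerFam N D).mul' hx hzp with hhxz
  rw [kerFam_loc N D hxz hxz0]
  have hsm : Algebra.FormallySmooth k (N.loc hxz.1).alg :=
    Fam.formallySmooth_loc_mul N hx.1 hzp.1 (pow_ne_zero _ hz0) (h.smooth c hc x hx.1 hx0)
  -- the normalised derivation
  have hzinv : (D e)⁻¹ ∈ (N.loc hxz.1).s (-(a + d)) := by
    have hinv := N.inv_mem_loc hxz.1 hxz0
    have h1 : (D e) ^ (p - 1) * x ∈ N.s ((p - 1) • (a + d) + c) :=
      N.mul' (N.pow' hz (p - 1)) hx.1
    have h2 := (N.loc hxz.1).mul' (N.le_loc hxz.1 _ h1) hinv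
    have e1 : (D e) ^ (p - 1) * x * (x * (D e) ^ p)⁻¹ = (D e)⁻¹ := by
      have hp1 : (D e) ^ p = (D e) ^ (p - 1) * D e := by
        rw [← pow_succ, Nat.sub_add_cancel hp.out.one_le]
      rw [hp1]
      have := pow_ne_zero (p - 1) hz0
      field_simp
    rw [e1] at h2
    convert h2 using 2
    have : (p : ℤ) = ((p - 1 : ℕ) : ℤ) + 1 := by
      have := hp.out.one_le
      omega
    simp only [nsmul_eq_mul]
    rw [this]
    push_cast
    ring
  have hmaps' : MapsD (N.loc hxz.1) ((D e)⁻¹ • D) (-a) := by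
    intro c y hy
    have h1 := (h.maps.loc hxz.1 hxz.2) c y hy
    have h2 := (N.loc hxz.1).mul' hzinv h1
    rwa [show -(a + d) + (c + d) = c + -a by ring] at h2
  rw [← kerFam_smul (N.loc hxz.1) D (inv_ne_zero hz0)]
  refine smooth_ker hmaps' p (iter_normalized p D h.pclosed e hz0) hsm (y := e) ?_ ?_
  · rw [neg_neg]
    exact N.le_loc hxz.1 _ heN
  · change (D e)⁻¹ * D e = 1
    exact inv_mul_cancel₀ hz0

theorem good [CharP k p] : ∃ w : ℕ, 0 < w ∧ Good (kerFam N D) w := by
  have hfg : (kerFam N D).alg.FG := ker_fg h.maps p h.fg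
  obtain ⟨w, hw, hstab⟩ := H53.exists_stab (kerFam N D) hfg
  refine ⟨w, hw, hfg, ?_, hstab, ?_, ?_⟩
  · intro d hd x hx hx0
    refine Fam.formallySmooth_loc_of_cover _ hfg hx hx0 ?_
    intro q hq hxq
    exact h.exists_chart q hd hx hx0 hxq
  · intro d hd
    exact ⟨h.one_neg d hd, D.map_one_eq_zero⟩
  · obtain ⟨c, hc, z, hz, hz0⟩ := h.ne
    refine ⟨p • c, ?_, z ^ p, ⟨N.pow' hz p, D_pow_char p D z⟩, pow_ne_zero _ hz0⟩
    rw [nsmul_eq_mul]
    exact mul_pos (by exact_mod_cast hp.out.pos) hc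

end InitG

end Pool.Agent.MP_b525bf_ag.H90
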