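import Pool.Agent.Lib.MP_b525bf_ag_h90.Dual
import Pool.Agent.Lib.MP_b525bf_ag_h90.Ker

/-!
Intersections of graded families with a subfield.
-/

set_option autoImplicit false
set_option linter.style.haveILetI false

namespace Pool.Agent.MP_b525bf_ag.H90

open AddMonoidAlgebra

variable {k K : Type} [Field k] [Field K] [Algebra k K]

/-- The part of a family in a subfield. -/
def subFam (N : Fam k K ℤ) (L : IntermediateField k K) : Fam k K ℤ where
  s a := N.s a ⊓ Subalgebra.toSubmodule L.toSubalgebra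
  one' := ⟨N.one', L.one_mem⟩
  mul' := fun hx hy => ⟨N.mul' hx.1 hy.1, L.mul_mem hx.2 hy.2⟩

lemma mem_subFam {N : Fam k K ℤ} {L : IntermediateField k K} {a : ℤ} {x : K} :
    x ∈ (subFam N L).s a ↔ x ∈ N.s a ∧ x ∈ L := Iff.rfl

lemma subFam_loc (N : Fam k K ℤ) (L : IntermediateField k K) {a : ℤ} {x : K}
    (hx : x ∈ (subFam N L).s a) (hx0 : x ≠ 0) :
    (subFam N L).loc hx = subFam (N.loc hx.1) L := by
  have hxL : x ∈ L := hx.2
  apply Fam.ext
  intro b
  ext y
  rw [mem_subFam, Fam.mem_loc, Fam.mem_loc]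
  constructor
  · rintro ⟨m, hm⟩
    refine ⟨⟨m, hm.1⟩, ?_⟩
    have h1 := L.mul_mem (L.inv_mem (pow_mem hxL m)) hm.2
    rwa [← mul_assoc, inv_mul_cancel₀ (pow_ne_zero m hx0), one_mul] at h1
  · rintro ⟨⟨m, hm⟩, hy⟩
    exact ⟨m, hm, L.mul_mem (pow_mem hxL m) hy⟩

/-- The common constants of a set of derivations. -/
def kerSet {ι' : Type} (N : Fam k K ℤ) (E : ι' → Derivation k K K) (s : Finset ι') :
    Fam k K ℤ where
  s a :=
    { carrier := {x | x ∈ N.s a ∧ ∀ i ∈ s, E i x = 0}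
      add_mem' := fun hx hy => ⟨Submodule.add_mem _ hx.1 hy.1, fun i hi => by
        rw [map_add, hx.2 i hi, hy.2 i hi, add_zero]⟩
      zero_mem' := ⟨Submodule.zero_mem _, fun i _ => map_zero _⟩
      smul_mem' := fun c x hx => ⟨Submodule.smul_mem _ c hx.1, fun i hi => by
        rw [(E i).map_smul, hx.2 i hi, smul_zero]⟩ }
  one' := ⟨N.one', fun i _ => (E i).map_one_eq_zero⟩
  mul' := fun hx hy => ⟨N.mul' hx.1 hy.1, fun i hi => by
    rw [(E i).leibniz, hx.2 i hi, hy.2 i hi, smul_zero, smul_zero, add_zero]⟩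

lemma mem_kerSet {ι' : Type} {N : Fam k K ℤ} {E : ι' → Derivation k K K} {s : Finset ι'} {a : ℤ}
    {x : K} : x ∈ (kerSet N E s).s a ↔ x ∈ N.s a ∧ ∀ i ∈ s, E i x = 0 := Iff.rfl

theorem smooth_subFam (p : ℕ) [hp : Fact p.Prime] [CharP k p] {L : IntermediateField k K} {r : ℕ}
    (hr : Module.finrank L K = p ^ r) {y : Fin r → K} {E : Fin r → Derivation k K K}
    (h : Dual L r y E) (N : Fam k K ℤ) (a : Fin r → ℤ) (hy : ∀ i, y i ∈ N.s (a i))
    (hm : ∀ i, MapsD N (E i) (-(a i))) (hsm : Algebra.FormallySmooth k N.alg) :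
    Algebra.FormallySmooth k (subFam N L).alg := by
  classical
  have key : ∀ s : Finset (Fin r), Algebra.FormallySmooth k (kerSet N E s).alg := by
    intro s
    induction s using Finset.induction_on with
    | empty =>
      have : kerSet N E ∅ = N := by
        apply Fam.ext
        intro b
        ext z
        rw [mem_kerSet]
        simp
      rw [this]
      exact hsm
    | insert i s hi ih =>
      have heq : kerSet N E (insert i s) = kerFam (kerSet N E s) (E i) := by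
        apply Fam.ext
        intro b
        ext z
        rw [mem_kerFam, mem_kerSet, mem_kerSet, Finset.forall_mem_insert]
        tauto
      rw [heq]
      have hmaps : MapsD (kerSet N E s) (E i) (-(a i)) := by
        intro b z hz
        refine ⟨hm i b z hz.1, fun j hj => ?_⟩
        rw [h.comm p hr, hz.2 j hj, map_zero]
      refine smooth_ker hmaps p (h.iter_eq_zero p hr i) ih (y := y i) ⟨?_, fun j hj => ?_⟩ ?_
      · rw [neg_neg]; exact hy i
      · rw [h.dual, if_neg]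
        rintro rfl
        exact hi hj
      · rw [h.dual, if_pos rfl]
  have heq : kerSet N E Finset.univ = subFam N L := by
    apply Fam.ext
    intro b
    ext z
    rw [mem_subFam, mem_kerSet]
    constructor
    · rintro ⟨h1, h2⟩
      exact ⟨h1, h.mem_of_const p hr z fun i => h2 i (Finset.mem_univ i)⟩
    · rintro ⟨h1, h2⟩
      exact ⟨h1, fun i _ => h.kill i z h2⟩
  rw [← heq]
  exact key _

/-- The inclusion. -/
noncomputable def subIncl (N : Fam k K ℤ) (L : IntermediateField k K) :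
    (subFam N L).alg →ₐ[k] N.alg :=
  Subalgebra.inclusion (H53.alg_mono fun _ _ hx => hx.1)

lemma coe_subIncl (N : Fam k K ℤ) (L : IntermediateField k K) (F : (subFam N L).alg) :
    ((subIncl N L F : N.alg) : AddMonoidAlgebra K ℤ) = F := rfl

lemma subIncl_injective (N : Fam k K ℤ) (L : IntermediateField k K) :
    Function.Injective (subIncl N L) :=
  Subalgebra.inclusion_injective _

section

variable {N : Fam k K ℤ} {L : IntermediateField k K} (p : ℕ) [hp : Fact p.Prime] [CharP k p]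
  (hL : ∀ x : K, x ^ p ∈ L)

include hL

lemma exists_pow_char (F : N.alg) : ∃ G, subIncl N L G = F ^ p := by
  have hchar : CharP K p := charP_of_injective_algebraMap (algebraMap k K).injective p
  have hcharN : CharP N.alg p := by
    refine charP_of_injective_algebraMap (R := k) (A := N.alg) ?_ p
    exact (algebraMap k N.alg).injective
  have hex : ExpChar N.alg p := ExpChar.prime hp.out
  refine Fam.alg_induction N (p := fun F => ∃ G, subIncl N L G = F ^ p) ?_ ?_ ?_ F
  · exact ⟨0, by rw [map_zero, zero_pow hp.out.ne_zero]⟩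
  · rintro F G ⟨F', hF⟩ ⟨G', hG⟩
    exact ⟨F' + G', by rw [map_add, hF, hG, add_pow_expChar]⟩
  · intro a x hx
    refine ⟨(subFam N L).el (a := p • a) (x := x ^ p) ⟨N.pow' hx p, hL x⟩, ?_⟩
    rw [Fam.el_pow]
    rfl

theorem sub_isIntegral : (subIncl N L).toRingHom.IsIntegral := by
  intro F
  obtain ⟨G, hG⟩ := exists_pow_char p hL F
  refine ⟨Polynomial.X ^ p - Polynomial.C G, Polynomial.monic_X_pow_sub_C G hp.out.ne_zero, ?_⟩
  rw [Polynomial.eval₂_sub, Polynomial.eval₂_pow, Polynomial.eval₂_X, Polynomial.eval₂_C]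
  exact sub_eq_zero.2 hG.symm

theorem sub_fg (hN : N.alg.FG) : (subFam N L).alg.FG := by
  letI := (subIncl N L).toRingHom.toAlgebra
  haveI : IsScalarTower k (subFam N L).alg N.alg := IsScalarTower.of_algebraMap_eq fun r => rfl
  haveI : Algebra.IsIntegral (subFam N L).alg N.alg :=
    algebraMap_isIntegral_iff.1 (sub_isIntegral p hL)
  haveI : Algebra.FiniteType k N.alg := Subalgebra.fg_iff_finiteType _ |>.1 hN
  haveI : Algebra.FiniteType (subFam N L).alg N.alg :=
    Algebra.FiniteType.of_restrictScalars_finiteType k _ _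
  haveI : Module.Finite (subFam N L).alg N.alg := Algebra.IsIntegral.finite
  have := fg_of_fg_of_fg k (subFam N L).alg N.alg Algebra.FiniteType.out Module.Finite.fg_top
    (subIncl_injective N L)
  exact (Subalgebra.fg_top _).1 this

lemma exists_prime_over_sub (q : Ideal (subFam N L).alg)
    [q.IsPrime] : ∃ Q : Ideal N.alg, Q.IsPrime ∧ ∀ {b : ℤ} {y : K} (hy : y ∈ (subFam N L).s b),
      (subFam N L).el hy ∈ q ↔ N.el hy.1 ∈ Q := by
  obtain ⟨Q, hQprime, hQ⟩ : ∃ Q : Ideal N.alg, Q.IsPrime ∧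
      Q.comap (subIncl N L).toRingHom = q := by
    letI := (subIncl N L).toRingHom.toAlgebra
    haveI : Algebra.IsIntegral (subFam N L).alg N.alg :=
      algebraMap_isIntegral_iff.1 (sub_isIntegral p hL)
    refine Ideal.exists_ideal_over_prime_of_isIntegral_of_isDomain (S := N.alg) q ?_
    have h1 : RingHom.ker (algebraMap (subFam N L).alg N.alg) = ⊥ :=
      (RingHom.injective_iff_ker_eq_bot _).1 (subIncl_injective N L)
    rw [h1]
    exact bot_le
  refine ⟨Q, hQprime, fun {b y} hy => ?_⟩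
  rw [← hQ, Ideal.mem_comap]
  exact Iff.rfl

end

/-- A homogeneous dual system of derivations on the family `N`. -/
def DualChart (N : Fam k K ℤ) (L : IntermediateField k K) (r : ℕ) : Prop :=
  ∃ (y : Fin r → K) (E : Fin r → Derivation k K K) (a : Fin r → ℤ), Dual L r y E ∧
    (∀ i, y i ∈ N.s (a i)) ∧ ∀ i, MapsD N (E i) (-(a i))

/-- A graded algebra with a foliation which is regular outside the irrelevant locus, which is smooth
outside the irrelevant locus. -/
structure InitR (N : Fam k K ℤ) (L : IntermediateField k K) (r p : ℕ) : Prop where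
  pow : ∀ x : K, x ^ p ∈ L
  rank : Module.finrank L K = p ^ r
  one_neg : ∀ c : ℤ, c ≤ 0 → (1 : K) ∈ N.s c
  fg : N.alg.FG
  smooth : ∀ c : ℤ, 0 < c → ∀ (x : K) (hx : x ∈ N.s c), x ≠ 0 →
    Algebra.FormallySmooth k (N.loc hx).alg
  prin : ∀ (Q : Ideal N.alg), Q.IsPrime → ∀ (c : ℤ), 0 < c → ∀ (x : K) (hx : x ∈ N.s c),
    N.el hx ∉ Q → ∃ (b : ℤ) (f : K) (hf : f ∈ N.s b), N.el hf ∉ Q ∧ DualChart (N.loc hf) L r
  ne : ∃ c : ℤ, 0 < c ∧ ∃ x ∈ N.s c, x ≠ 0

/-- Localising further. -/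
lemma DualChart.loc {N : Fam k K ℤ} {L : IntermediateField k K} {r : ℕ} {b c : ℤ} {f x : K}
    {hf : f ∈ N.s b} (h : DualChart (N.loc hf) L r) (p : ℕ) (hp : 0 < p)
    (hx : x ∈ N.s c) (hxL : x ∈ L) (hfL : f ^ p ∈ L) :
    DualChart (N.loc (N.mul' hx (N.pow' hf p))) L r := by
  obtain ⟨y, E, a, hd, hy, hm⟩ := h
  have hle : ∀ (d : ℤ) (z : K), z ∈ (N.loc hf).s d → z ∈ (N.loc (N.mul' hx (N.pow' hf p))).s d := by
    rintro d z ⟨m, hz⟩
    refine ⟨m, ?_⟩
    have h1 := N.mul' (N.mul' (N.pow' hx m) (N.pow' hf (m * (p - 1)))) hz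
    have e : x ^ m * f ^ (m * (p - 1)) * (f ^ m * z) = (x * f ^ p) ^ m * z := by
      obtain ⟨q, rfl⟩ := Nat.exists_eq_add_of_le' hp
      rw [Nat.add_sub_cancel]
      ring
    rw [e] at h1
    convert h1 using 2
    obtain ⟨q, rfl⟩ := Nat.exists_eq_add_of_le' hp
    rw [Nat.add_sub_cancel]
    simp only [nsmul_eq_mul]
    push_cast
    ring
  refine ⟨y, E, a, hd, fun i => hle _ _ (hy i), fun i => ?_⟩
  rintro d z ⟨m, hz⟩
  have h1 := hm i _ _ ((N.le_loc hf) _ hz)
  rw [D_const_mul (hd.kill i _ (pow_mem (L.mul_mem hxL hfL) m))] at h1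
  obtain ⟨m', hm'⟩ := hle _ _ h1
  refine ⟨m' + m, ?_⟩
  rw [pow_add, mul_assoc]
  convert hm' using 2
  simp only [nsmul_eq_mul]
  push_cast
  ring

namespace InitR

variable {N : Fam k K ℤ} {L : IntermediateField k K} {r p : ℕ} [hp : Fact p.Prime]
  (h : InitR N L r p)

include h

/-- The charts. -/
lemma exists_chart [CharP k p] (q : Ideal (subFam N L).alg) [q.IsPrime] {c : ℤ} (hc : 0 < c)
    {x : K} (hx : x ∈ (subFam N L).s c) (hx0 : x ≠ 0) (hxq : (subFam N L).el hx ∉ q) :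
    ∃ (b : ℤ) (y : K) (hy : y ∈ (subFam N L).s b), (subFam N L).el hy ∉ q ∧
      Algebra.FormallySmooth k ((subFam N L).loc ((subFam N L).mul' hx hy)).alg := by
  classical
  obtain ⟨Q, hQprime, hincl⟩ := exists_prime_over_sub p h.pow q
  have hxQ : N.el hx.1 ∉ Q := fun hmem => hxq ((hincl hx).2 hmem)
  obtain ⟨b, f, hf, hfQ, hdual⟩ := h.prin Q hQprime c hc x hx.1 hxQ
  have hf0 : f ≠ 0 := by
    intro h0
    apply hfQ
    have : N.el hf = 0 := by
      apply Subtype.ext
      rw [Fam.coe_el, h0]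
      exact AddMonoidAlgebra.single_zero _
    rw [this]
    exact Ideal.zero_mem _
  have hfp : f ^ p ∈ (subFam N L).s (p • b) := ⟨N.pow' hf p, h.pow f⟩
  refine ⟨_, f ^ p, hfp, fun hmem => ?_, ?_⟩
  · have h1 := (hincl hfp).1 hmem
    rw [← Fam.el_pow N hf p] at h1
    exact hfQ (hQprime.mem_of_pow_mem _ h1)
  have hxf0 : x * f ^ p ≠ 0 := mul_ne_zero hx0 (pow_ne_zero _ hf0)
  rw [subFam_loc N L ((subFam N L).mul' hx hfp) hxf0]
  have hsm : Algebra.FormallySmooth k (N.loc ((subFam N L).mul' hx hfp).1).alg :=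
    Fam.formallySmooth_loc_mul N hx.1 hfp.1 (pow_ne_zero _ hf0) (h.smooth c hc x hx.1 hx0)
  obtain ⟨y, E, a, hd, hy, hm⟩ := hdual.loc p hp.out.pos hx.1 hx.2 (h.pow f)
  exact smooth_subFam p h.rank hd _ a hy hm hsm

theorem good [CharP k p] : ∃ w : ℕ, 0 < w ∧ Good (subFam N L) w := by
  have hfg : (subFam N L).alg.FG := sub_fg p h.pow h.fg
  obtain ⟨w, hw, hstab⟩ := H53.exists_stab (subFam N L) hfg
  refine ⟨w, hw, hfg, ?_, hstab, ?_, ?_⟩
  · intro d hd x hx hx0
    refine Fam.formallySmooth_loc_of_cover _ hfg hx hx0 ?_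
    intro q hq hxq
    exact h.exists_chart q hd hx hx0 hxq
  · intro d hd
    exact ⟨h.one_neg d hd, L.one_mem⟩
  · obtain ⟨c, hc, z, hz, hz0⟩ := h.ne
    refine ⟨p • c, ?_, z ^ p, ⟨N.pow' hz p, h.pow z⟩, pow_ne_zero _ hz0⟩
    rw [nsmul_eq_mul]
    exact mul_pos (by exact_mod_cast hp.out.pos) hc

end InitR

end Pool.Agent.MP_b525bf_ag.H90
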