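import Mathlib

/-!
Derivations of unramified algebras.
-/

set_option autoImplicit false

namespace Pool.Agent.MP_b525bf_ag.H90

/-- A derivation which maps the base ring into an ideal `J` maps an unramified algebra into `J`. -/
lemma deriv_mem_of_unramified {R S : Type} [CommRing R] [CommRing S] [Algebra R S]
    [Algebra.FormallyUnramified R S] (J : Ideal S) (d : S →+ S)
    (hd : ∀ x y, d (x * y) = x * d y + y * d x) (hJ : ∀ a, d (algebraMap R S a) ∈ J) (b : S) :
    d b ∈ J := by
  let e : Derivation R S (S ⧸ J) :=
    Derivation.mk'
      { toFun := fun b => Ideal.Quotient.mk J (d b)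
        map_add' := fun b b' => by rw [map_add, map_add]
        map_smul' := fun a b => by
          rw [RingHom.id_apply, Algebra.smul_def, hd, map_add, map_mul _ b,
            Ideal.Quotient.eq_zero_iff_mem.2 (hJ a), mul_zero, add_zero, Algebra.smul_def, map_mul]
          rfl }
      (fun b b' => by
        change Ideal.Quotient.mk J (d (b * b')) = _
        rw [hd, map_add, map_mul, map_mul]
        rfl)
  have he : e = 0 := by
    have h1 : Subsingleton (Derivation R S (S ⧸ J)) :=
      (KaehlerDifferential.linearMapEquivDerivation R S).symm.injective.subsingleton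
    exact Subsingleton.elim _ _
  have : e b = 0 := by rw [he]; rfl
  exact Ideal.Quotient.eq_zero_iff_mem.1 this

end Pool.Agent.MP_b525bf_ag.H90
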