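import Pool.Agent.Lib.MP_b525bf_ag_h90.Extend
import Pool.Agent.Lib.MP_b525bf_ag_h90.Ker
import Pool.Agent.Lib.MP_b525bf_ag_h90.Unram
import Pool.Agent.Lib.MP_b525bf_ag_h5.WMain

/-!
Derivations with nondegenerate weighted homogeneous leading forms.
-/

set_option autoImplicit false

namespace Pool.Agent.MP_b525bf_ag.H90

open Pool.Agent.MP_b525bf_ag Pool.Agent.MP_b525bf_ag_h5 AddMonoidAlgebra

section ideal

variable {k : Type} [Field k] {B : Type} [CommRing B] [Algebra k B] {n : ℕ}

/-- A derivation which maps étale coordinates into an ideal maps everything into the ideal. -/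
lemma D_mem_of_coord (x : Fin n → B)
    (hx : (MvPolynomial.aeval x : MvPolynomial (Fin n) k →ₐ[k] B).toRingHom.Etale)
    (D : Derivation k B B) (I : Ideal B) (hI : ∀ i, D (x i) ∈ I) (b : B) : D b ∈ I := by
  let i1 : Algebra (MvPolynomial (Fin n) k) B :=
    (MvPolynomial.aeval x : MvPolynomial (Fin n) k →ₐ[k] B).toRingHom.toAlgebra
  have i2 : Algebra.Etale (MvPolynomial (Fin n) k) B := hx
  have i3 : Algebra.FormallyUnramified (MvPolynomial (Fin n) k) B := inferInstance
  refine deriv_mem_of_unramified (R := MvPolynomial (Fin n) k) I (D : B →+ B)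
    (fun y z => ?_) (fun f => ?_) b
  · change D (y * z) = y * D z + z * D y
    rw [D.leibniz, smul_eq_mul, smul_eq_mul]
  · change D (MvPolynomial.aeval x f) ∈ I
    induction f using MvPolynomial.induction_on with
    | C c =>
      rw [MvPolynomial.aeval_C, D.map_algebraMap]
      exact I.zero_mem
    | add f g hf hg =>
      rw [map_add, map_add]
      exact I.add_mem hf hg
    | mul_X f i hf =>
      rw [map_mul, MvPolynomial.aeval_X, D.leibniz, smul_eq_mul, smul_eq_mul]
      exact I.add_mem (I.mul_mem_left _ (hI i)) (I.mul_mem_left _ hf)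

/-- Leibniz. -/
lemma D_mem_wIdeal (x : Fin n → B) (w : Fin n → ℕ) (D : Derivation k B B) (e : ℕ)
    (h1 : ∀ i, D (x i) ∈ wIdeal x w (w i + e)) (h2 : ∀ b, D b ∈ wIdeal x w e)
    {a : ℕ} {b : B} (hb : b ∈ wIdeal x w a) : D b ∈ wIdeal x w (a + e) := by
  classical
  have hmul : ∀ {a' b' : ℕ} {u v : B}, (u ∈ wIdeal x w a' ∧ D u ∈ wIdeal x w (a' + e)) →
      (v ∈ wIdeal x w b' ∧ D v ∈ wIdeal x w (b' + e)) →
      (u * v ∈ wIdeal x w (a' + b') ∧ D (u * v) ∈ wIdeal x w (a' + b' + e)) := by
    rintro a' b' u v ⟨hu, hu'⟩ ⟨hv, hv'⟩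
    refine ⟨wIdeal_mul hu hv, ?_⟩
    rw [D.leibniz, smul_eq_mul, smul_eq_mul]
    refine Ideal.add_mem _ ?_ ?_
    · exact wIdeal_anti (by omega) (wIdeal_mul hu hv')
    · exact wIdeal_anti (by omega) (wIdeal_mul hv hu')
  have hpow : ∀ (i : Fin n) (m : ℕ), x i ^ m ∈ wIdeal x w (m * w i) ∧
      D (x i ^ m) ∈ wIdeal x w (m * w i + e) := by
    intro i m
    induction m with
    | zero =>
      rw [pow_zero, D.map_one_eq_zero]
      refine ⟨?_, Ideal.zero_mem _⟩
      rw [zero_mul, wIdeal_zero]; trivial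
    | succ m ih =>
      rw [pow_succ, Nat.succ_mul]
      exact hmul ih ⟨x_mem i, h1 i⟩
  have hprod : ∀ (α : Fin n → ℕ) (s : Finset (Fin n)),
      ∏ i ∈ s, x i ^ α i ∈ wIdeal x w (∑ i ∈ s, α i * w i) ∧
      D (∏ i ∈ s, x i ^ α i) ∈ wIdeal x w (∑ i ∈ s, α i * w i + e) := by
    intro α s
    induction s using Finset.induction_on with
    | empty =>
      rw [Finset.prod_empty, D.map_one_eq_zero]
      refine ⟨?_, Ideal.zero_mem _⟩
      rw [Finset.sum_empty, wIdeal_zero]; trivial
    | insert i s hi ih =>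
      rw [Finset.prod_insert hi, Finset.sum_insert hi]
      exact hmul (hpow i (α i)) ih
  have key : b ∈ wIdeal x w a ∧ D b ∈ wIdeal x w (a + e) := by
    have hb' := hb
    rw [wIdeal] at hb'
    refine Submodule.span_induction (p := fun b _ => b ∈ wIdeal x w a ∧
      D b ∈ wIdeal x w (a + e)) ?_ ?_ ?_ ?_ hb'
    · rintro _ ⟨α, hα, rfl⟩
      refine ⟨monom_mem hα, ?_⟩
      exact wIdeal_anti (by omega) (hprod α Finset.univ).2
    · exact ⟨Ideal.zero_mem _, by rw [map_zero]; exact Ideal.zero_mem _⟩
    · rintro y z _ _ ⟨hy, hy'⟩ ⟨hz, hz'⟩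
      refine ⟨Ideal.add_mem _ hy hz, ?_⟩
      rw [map_add]
      exact Ideal.add_mem _ hy' hz'
    · rintro c y _ hy
      rw [smul_eq_mul]
      have := hmul (a' := 0) (b' := a) (u := c) (v := y) ⟨by rw [wIdeal_zero]; trivial,
        by rw [zero_add]; exact h2 c⟩ hy
      rwa [zero_add] at this
  exact key.2

/-- A derivation with leading forms of degree `e` raises the weighted filtration by `e`. -/
theorem D_wIdeal (x : Fin n → B)
    (hx : (MvPolynomial.aeval x : MvPolynomial (Fin n) k →ₐ[k] B).toRingHom.Etale)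
    (D : Derivation k B B) (w : Fin n → ℕ) (e : ℕ)
    (g : Fin n → MvPolynomial (Fin n) B) (hg : ∀ i, (g i).IsWeightedHomogeneous w (w i + e))
    (hlead : ∀ i, D (x i) - MvPolynomial.eval x (g i) ∈ wIdeal x w (w i + e + 1))
    {a : ℕ} {b : B} (hb : b ∈ wIdeal x w a) : D b ∈ wIdeal x w (a + e) := by
  have hδx : ∀ i, D (x i) ∈ wIdeal x w (w i + e) := by
    intro i
    have h1 := Ideal.add_mem _ (wIdeal_anti (Nat.le_succ _) (hlead i))
      (eval_mem_wIdeal x (hg i))
    rwa [sub_add_cancel] at h1
  exact D_mem_wIdeal x w D e hδx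
    (D_mem_of_coord x hx D _ fun i => wIdeal_anti (Nat.le_add_left _ _) (hδx i)) hb

end ideal

section main

variable {k K : Type} [Field k] [Field K] [Algebra k K] {B : Type} [CommRing B] [Algebra k B]
  [Algebra B K] [IsScalarTower k B K] {n : ℕ}

theorem prin_wFam (x : Fin n → B)
    (D : Derivation k B B) (DK : Derivation k K K)
    (hDK : ∀ b, DK (algebraMap B K b) = algebraMap B K (D b))
    (w : Fin n → ℕ) (e : ℕ)
    (g : Fin n → MvPolynomial (Fin n) B) (hg : ∀ i, (g i).IsWeightedHomogeneous w (w i + e))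
    (hrad : ∀ i, 0 < w i → MvPolynomial.X i ∈
      (Ideal.span (Set.range g) ⊔ (cIdeal x w).map MvPolynomial.C).radical)
    (hlead : ∀ i, D (x i) - MvPolynomial.eval x (g i) ∈ wIdeal x w (w i + e + 1))
    (hδ : MapsD (wFam k K x w) DK e)
    (hfix2 : ∀ i, 0 < w i → x i ∈ (Ideal.span (Set.range D)).radical)
    (q : Ideal (wFam k K x w).alg) (hq : q.IsPrime) (d : ℤ) (hd : 0 < d) (z : K)
    (hz : z ∈ (wFam k K x w).s d) (hzq : (wFam k K x w).el hz ∉ q) :
    ∃ (a : ℤ) (z : K) (hz : z ∈ (wFam k K x w).s a), (wFam k K x w).el (hδ a z hz) ∉ q := by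
  by_contra hcon
  push Not at hcon
  -- the coordinates
  have hX : ∀ i, 0 < w i → (wFam k K x w).el (map_mem_wFam_nat (x_mem (x := x) i)) ∈ q := by
    by_cases ht : (wFam k K x w).el (one_mem_wFam (k := k) (K := K) x w
      (show (-1 : ℤ) ≤ 0 by norm_num)) ∈ q
    · intro i hi
      have hqc : (q.comap (MvPolynomial.eval₂Hom (baseW k K x w) (elX k K x w))).IsPrime :=
        Ideal.comap_isPrime _ q
      have hle : Ideal.span (Set.range g) ⊔ (cIdeal x w).map MvPolynomial.C ≤
          q.comap (MvPolynomial.eval₂Hom (baseW k K x w) (elX k K x w)) := by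
        refine sup_le (Ideal.span_le.2 ?_) ?_
        · rintro _ ⟨j, rfl⟩
          rw [SetLike.mem_coe, Ideal.mem_comap]
          have h1 := hcon (w j) (algebraMap B K (x j)) (map_mem_wFam_nat (x_mem j))
          have h2 : algebraMap B K (D (x j) - MvPolynomial.eval x (g j)) ∈
              (wFam k K x w).s ((w j + e : ℕ) + (1 : ℕ) : ℤ) := by
            have := map_mem_wFam_nat (k := k) (K := K) (hlead j)
            exact_mod_cast this
          have h3 : algebraMap B K (D (x j) - MvPolynomial.eval x (g j)) ∈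
              (wFam k K x w).s ((w j + e : ℕ) : ℤ) :=
            map_mem_wFam_nat (wIdeal_anti (Nat.le_succ _) (hlead j))
          have h4 := el_T_mul (wFam k K x w) (e := 1) (one_mem_wFam x w (by norm_num)) h2 h3
          have h5 : (wFam k K x w).el h3 ∈ q := by
            rw [← h4]
            exact Ideal.mul_mem_right _ _ ht
          have h6 : MvPolynomial.eval₂Hom (baseW k K x w) (elX k K x w) (g j) =
              (wFam k K x w).el (hδ (w j) (algebraMap B K (x j)) (map_mem_wFam_nat (x_mem j))) -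
                (wFam k K x w).el h3 := by
            refine Subtype.ext ?_
            rw [MvPolynomial.coe_eval₂Hom, eval_el x (hg j)]
            change _ = (single _ _ - single _ _ : AddMonoidAlgebra K ℤ)
            rw [Nat.cast_add, ← single_sub, hDK, ← map_sub]
            congr 2
            ring
          rw [h6]
          exact Ideal.sub_mem _ h1 h5
        · rw [cIdeal, Ideal.map_span]
          refine Ideal.span_le.2 ?_
          rintro _ ⟨_, ⟨l, hl, rfl⟩, rfl⟩
          rw [SetLike.mem_coe, Ideal.mem_comap, MvPolynomial.eval₂Hom_C]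
          have h1 : algebraMap B K (x l) ∈ (wFam k K x w).s (0 + (1 : ℕ) : ℤ) := by
            rw [zero_add]
            exact map_mem_wFam_nat (wIdeal_anti hl (x_mem l))
          have h2 := el_T_mul (wFam k K x w) (e := 1) (one_mem_wFam x w (by norm_num)) h1
            (map_mem_wFam_nonpos le_rfl (x l))
          have h3 : baseW k K x w (x l) = (wFam k K x w).el
              (map_mem_wFam_nonpos (k := k) (K := K) (x := x) (w := w) le_rfl (x l)) := rfl
          rw [h3, ← h2]
          exact Ideal.mul_mem_right _ _ ht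
      have h7 := (hqc.radical_le_iff.2 hle) (hrad i hi)
      rw [Ideal.mem_comap, MvPolynomial.eval₂Hom_X'] at h7
      exact h7
    · intro i hi
      have hqc : (q.comap (baseMap (wFam k K x w) B
        (fun b => map_mem_wFam_nonpos le_rfl b))).IsPrime := Ideal.comap_isPrime _ q
      have hle : Ideal.span (Set.range D) ≤ q.comap (baseMap (wFam k K x w) B
        (fun b => map_mem_wFam_nonpos le_rfl b)) := by
        refine Ideal.span_le.2 ?_
        rintro _ ⟨b, rfl⟩
        rw [SetLike.mem_coe, Ideal.mem_comap]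
        have h1 := hcon 0 (algebraMap B K b) (map_mem_wFam_nonpos le_rfl b)
        have h2 : DK (algebraMap B K b) ∈ (wFam k K x w).s 0 := by
          rw [hDK]; exact map_mem_wFam_nonpos le_rfl _
        have h3 := el_T_mul (wFam k K x w) (e := e) (one_mem_wFam x w (by omega))
          (hδ 0 (algebraMap B K b) (map_mem_wFam_nonpos le_rfl b)) h2
        have h4 : baseMap (wFam k K x w) B (fun b => map_mem_wFam_nonpos le_rfl b) (D b) =
            (wFam k K x w).el h2 := by
          refine Fam.el_eq _ (map_mem_wFam_nonpos le_rfl (D b)) h2 rfl ?_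
          rw [hDK]
        rw [h4, ← h3]
        exact Ideal.mul_mem_left _ _ h1
      have h7 := (hqc.radical_le_iff.2 hle) (hfix2 i hi)
      rw [Ideal.mem_comap] at h7
      have h8 : algebraMap B K (x i) ∈ (wFam k K x w).s (0 + (w i : ℕ) : ℤ) := by
        rw [zero_add]; exact map_mem_wFam_nat (x_mem i)
      have h9 := el_T_mul (wFam k K x w) (e := w i) (one_mem_wFam x w (by omega)) h8
        (map_mem_wFam_nonpos le_rfl (x i))
      have h10 : (wFam k K x w).el (one_mem_wFam (k := k) (K := K) x w
          (show (-(w i : ℤ)) ≤ 0 by omega)) ∉ q := by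
        have h11 : (wFam k K x w).el (one_mem_wFam (k := k) (K := K) x w
            (show (-(w i : ℤ)) ≤ 0 by omega)) = (wFam k K x w).el
            (one_mem_wFam (k := k) (K := K) x w (show (-1 : ℤ) ≤ 0 by norm_num)) ^ (w i) := by
          rw [Fam.el_pow]
          exact Fam.el_eq _ _ _ (by simp) (by simp)
        rw [h11]
        exact fun h => ht (hq.mem_of_pow_mem _ h)
      have h12 : (wFam k K x w).el (one_mem_wFam (k := k) (K := K) x w
          (show (-(w i : ℤ)) ≤ 0 by omega)) * (wFam k K x w).el h8 ∈ q := by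
        rw [h9]; exact h7
      rcases hq.mem_or_mem h12 with h13 | h13
      · exact absurd h13 h10
      · have h14 : (wFam k K x w).el (map_mem_wFam_nat (x_mem (x := x) i)) =
            (wFam k K x w).el h8 := Fam.el_eq _ _ _ (by simp) rfl
        rw [h14]; exact h13
  -- all elements of positive degree
  apply hzq
  obtain ⟨b, hb, rfl⟩ := hz
  have key : ∀ {b : B}, b ∈ wIdeal x w d.toNat → ∃ h : algebraMap B K b ∈ (wFam k K x w).s d,
      (wFam k K x w).el h ∈ q := by
    intro b hb
    refine wIdeal_induction (p := fun b => ∃ h : algebraMap B K b ∈ (wFam k K x w).s d,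
      (wFam k K x w).el h ∈ q) (a := d.toNat) (by omega) ?_ ?_ ?_ hb
    · refine ⟨by rw [map_zero]; exact Submodule.zero_mem _, ?_⟩
      rw [el_eq_zero _ _ (map_zero _)]
      exact Ideal.zero_mem _
    · rintro y - z - ⟨hy, hy'⟩ ⟨hz, hz'⟩
      refine ⟨by rw [map_add]; exact Submodule.add_mem _ hy hz, ?_⟩
      have h1 := Ideal.add_mem _ hy' hz'
      rw [el_add] at h1
      convert h1 using 1
      exact Fam.el_eq _ _ _ rfl (map_add _ _ _)
    · intro i hi y hy
      have h1 : algebraMap B K y ∈ (wFam k K x w).s (d - w i) :=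
        map_mem_wFam (by convert hy using 2; omega)
      have h2 := Ideal.mul_mem_right ((wFam k K x w).el h1) _ (hX i hi)
      rw [Fam.el_mul] at h2
      have h3 := (wFam k K x w).mul' (map_mem_wFam_nat (k := k) (K := K) (x_mem (x := x) i)) h1
      have h4 : (w i : ℤ) + (d - w i) = d := by ring
      refine ⟨by rw [map_mul, ← h4]; exact h3, ?_⟩
      convert h2 using 1
      exact Fam.el_eq _ _ _ h4.symm (map_mul _ _ _)
  exact (key hb).2


end main

end Pool.Agent.MP_b525bf_ag.H90
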