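import Pool.Agent.Lib.MP_b525bf_ag_h90.Det
import Pool.Agent.Lib.MP_b525bf_ag_h90.Quasi

/-!
Foliations with nondegenerate weighted homogeneous leading forms.
-/

set_option autoImplicit false

namespace Pool.Agent.MP_b525bf_ag.H90

open Pool.Agent.MP_b525bf_ag Pool.Agent.MP_b525bf_ag_h5 AddMonoidAlgebra

section

variable {k K : Type} [Field k] [Field K] [Algebra k K]

/-- The determinant of a homogeneous matrix, in the graded algebra. -/
lemma el_det (N : Fam k K ℤ) {r : ℕ} (M : Matrix (Fin r) (Fin r) K) (d a : Fin r → ℤ)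
    (h : ∀ i j, M i j ∈ N.s (d i + a j)) :
    (Matrix.of fun i j => N.el (h i j)).det = N.el (det_mem N M d a h) := by
  classical
  refine Subtype.ext ?_
  have h1 := RingHom.map_det N.alg.val.toRingHom (Matrix.of fun i j => N.el (h i j))
  change N.alg.val.toRingHom (Matrix.of fun i j => N.el (h i j)).det = _
  rw [h1, Matrix.det_apply, Fam.coe_el, Matrix.det_apply, single_sum']
  refine Finset.sum_congr rfl fun σ _ => ?_
  have h2 : ∏ i, (N.alg.val.toRingHom.mapMatrix (Matrix.of fun i j => N.el (h i j))) (σ i) i =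
      (single (∑ i, d i + ∑ i, a i) (∏ i, M (σ i) i) : AddMonoidAlgebra K ℤ) := by
    have h3 : ∀ i, (N.alg.val.toRingHom.mapMatrix (Matrix.of fun i j => N.el (h i j))) (σ i) i =
        (single (d (σ i) + a i) (M (σ i) i) : AddMonoidAlgebra K ℤ) := fun i => rfl
    rw [Finset.prod_congr rfl fun i _ => h3 i, prod_single, Finset.sum_add_distrib,
      Equiv.sum_comp σ d]
  rw [h2]
  rcases Int.units_eq_one_or (Equiv.Perm.sign σ) with hs | hs
  · rw [hs, one_smul, one_smul]
  · rw [hs, Units.neg_smul, one_smul, Units.neg_smul, one_smul, single_neg]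

lemma det_mem_of_congr {R : Type} [CommRing R] (q : Ideal R) {r : ℕ}
    (M M' : Matrix (Fin r) (Fin r) R) (h : ∀ i j, M i j - M' i j ∈ q) (h' : M'.det ∈ q) :
    M.det ∈ q := by
  have e1 := RingHom.map_det (Ideal.Quotient.mk q) M
  have e2 := RingHom.map_det (Ideal.Quotient.mk q) M'
  have e3 : (Ideal.Quotient.mk q).mapMatrix M = (Ideal.Quotient.mk q).mapMatrix M' := by
    ext i j
    exact Ideal.Quotient.eq.2 (h i j)
  rw [e3, ← e2, Ideal.Quotient.eq_zero_iff_mem.2 h'] at e1
  exact Ideal.Quotient.eq_zero_iff_mem.1 e1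

/-- Two localisations in a row. -/
lemma loc_two (N : Fam k K ℤ) {b c : ℤ} {f g : K} (hf : f ∈ N.s b) {m : ℕ}
    (hg : g ∈ (N.loc hf).s c) (hm : f ^ m * g ∈ N.s (m • b + c)) :
    N.loc (N.mul' hf hm) = (N.loc hf).loc hg := by
  apply Fam.ext
  intro a
  ext z
  rw [Fam.mem_loc, Fam.mem_loc]
  constructor
  · rintro ⟨j, hj⟩
    refine ⟨j, (m + 1) * j, ?_⟩
    have e : f ^ ((m + 1) * j) * (g ^ j * z) = (f * (f ^ m * g)) ^ j * z := by ring
    rw [e]
    convert hj using 2
    simp only [nsmul_eq_mul]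
    push_cast
    ring
  · rintro ⟨j, i, hij⟩
    refine ⟨i + j, ?_⟩
    have h1 := N.mul' (N.mul' (N.pow' hm i) (N.pow' hf ((m + 1) * j))) hij
    have e : (f * (f ^ m * g)) ^ (i + j) * z =
        (f ^ m * g) ^ i * f ^ ((m + 1) * j) * (f ^ i * (g ^ j * z)) := by ring
    rw [e]
    convert h1 using 2
    simp only [nsmul_eq_mul]
    push_cast
    ring

end

section main

variable {k K : Type} [Field k] [Field K] [Algebra k K] {B : Type} [CommRing B] [Algebra k B]
  [Algebra B K] [IsScalarTower k B K] {n : ℕ}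

/-- Regularity of the foliation on the exceptional divisor, outside the irrelevant locus. -/
theorem prin_minor (x : Fin n → B) (w : Fin n → ℕ) {m : ℕ} (D : Fin m → Derivation k B B)
    (DK : Fin m → Derivation k K K)
    (hDK : ∀ i b, DK i (algebraMap B K b) = algebraMap B K (D i b)) (e : Fin m → ℕ)
    (g : Fin m → Fin n → MvPolynomial (Fin n) B)
    (hg : ∀ i j, (g i j).IsWeightedHomogeneous w (w j + e i)) (r : ℕ)
    (hrad : ∀ j, 0 < w j → MvPolynomial.X j ∈
      (Ideal.span {z | ∃ (s : Fin r → Fin m) (t : Fin r → Fin n),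
        z = (Matrix.of fun a b => g (s a) (t b)).det} ⊔ (cIdeal x w).map MvPolynomial.C).radical)
    (hlead : ∀ i j, D i (x j) - MvPolynomial.eval x (g i j) ∈ wIdeal x w (w j + e i + 1))
    (hδ : ∀ i, MapsD (wFam k K x w) (DK i) (e i))
    (q : Ideal (wFam k K x w).alg) (hq : q.IsPrime)
    (ht : (wFam k K x w).el (one_mem_wFam (k := k) (K := K) x w
      (show (-1 : ℤ) ≤ 0 by norm_num)) ∈ q) (d : ℤ) (hd : 0 < d) (z : K)
    (hz : z ∈ (wFam k K x w).s d) (hzq : (wFam k K x w).el hz ∉ q) :
    ∃ (s : Fin r → Fin m) (t : Fin r → Fin n)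
      (hM : ∀ a b, (Matrix.of fun a b => DK (s a) (algebraMap B K (x (t b)))) a b ∈
        (wFam k K x w).s ((fun a => (e (s a) : ℤ)) a + (fun b => (w (t b) : ℤ)) b)),
      (wFam k K x w).el (det_mem (wFam k K x w) _ _ _ hM) ∉ q := by
  classical
  by_contra hcon
  push Not at hcon
  have hmem : ∀ i j, DK i (algebraMap B K (x j)) ∈ (wFam k K x w).s ((e i : ℤ) + w j) := by
    intro i j
    have := hδ i _ _ (map_mem_wFam_nat (x_mem (x := x) (w := w) j))
    rwa [add_comm] at this
  -- the leading forms modulo `q`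
  have hcong : ∀ i j, MvPolynomial.eval₂Hom (baseW k K x w) (elX k K x w) (g i j) -
      (wFam k K x w).el (hmem i j) ∈ q := by
    intro i j
    have h2 : algebraMap B K (D i (x j) - MvPolynomial.eval x (g i j)) ∈
        (wFam k K x w).s ((w j + e i : ℕ) + (1 : ℕ) : ℤ) := by
      have := map_mem_wFam_nat (k := k) (K := K) (hlead i j)
      exact_mod_cast this
    have h3 : algebraMap B K (D i (x j) - MvPolynomial.eval x (g i j)) ∈
        (wFam k K x w).s ((w j + e i : ℕ) : ℤ) :=
      map_mem_wFam_nat (wIdeal_anti (Nat.le_succ _) (hlead i j))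
    have h4 := el_T_mul (wFam k K x w) (e := 1) (one_mem_wFam x w (by norm_num)) h2 h3
    have h5 : (wFam k K x w).el h3 ∈ q := by
      rw [← h4]
      exact Ideal.mul_mem_right _ _ ht
    have h6 : MvPolynomial.eval₂Hom (baseW k K x w) (elX k K x w) (g i j) -
        (wFam k K x w).el (hmem i j) = -(wFam k K x w).el h3 := by
      refine Subtype.ext ?_
      rw [MvPolynomial.coe_eval₂Hom]
      change ((MvPolynomial.eval₂ (baseW k K x w) (elX k K x w) (g i j) :
        (wFam k K x w).alg) : AddMonoidAlgebra K ℤ) - single _ _ = -single _ _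
      rw [eval_el x (hg i j), Nat.cast_add, add_comm (e i : ℤ) (w j : ℤ), ← single_sub,
        ← single_neg, hDK, ← map_sub, ← map_neg]
      congr 2
      ring
    rw [h6]
    exact Ideal.neg_mem_iff _ |>.2 h5
  -- the coordinates
  have hX : ∀ i, 0 < w i → (wFam k K x w).el (map_mem_wFam_nat (x_mem (x := x) i)) ∈ q := by
    intro i hi
    have hqc : (q.comap (MvPolynomial.eval₂Hom (baseW k K x w) (elX k K x w))).IsPrime :=
      Ideal.comap_isPrime _ q
    have hle : Ideal.span {z | ∃ (s : Fin r → Fin m) (t : Fin r → Fin n),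
        z = (Matrix.of fun a b => g (s a) (t b)).det} ⊔ (cIdeal x w).map MvPolynomial.C ≤
        q.comap (MvPolynomial.eval₂Hom (baseW k K x w) (elX k K x w)) := by
      refine sup_le (Ideal.span_le.2 ?_) ?_
      · rintro _ ⟨s, t, rfl⟩
        rw [SetLike.mem_coe, Ideal.mem_comap]
        have h1 : (Matrix.of fun a b => (wFam k K x w).el (hmem (s a) (t b))).det ∈ q := by
          have h0 := el_det (wFam k K x w)
            (Matrix.of fun a b => DK (s a) (algebraMap B K (x (t b))))
            (fun a => (e (s a) : ℤ)) (fun b => (w (t b) : ℤ)) (fun a b => hmem (s a) (t b))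
          have h2 := hcon s t (fun a b => hmem (s a) (t b))
          rw [← h0] at h2
          exact h2
        have e1 := RingHom.map_det (MvPolynomial.eval₂Hom (baseW k K x w) (elX k K x w))
          (Matrix.of fun a b => g (s a) (t b))
        rw [e1]
        refine det_mem_of_congr q _ _ ?_ h1
        intro a b
        exact hcong (s a) (t b)
      · rw [cIdeal, Ideal.map_span]
        refine Ideal.span_le.2 ?_
        rintro _ ⟨_, ⟨l, hl, rfl⟩, rfl⟩
        rw [SetLike.mem_coe, Ideal.mem_comap, MvPolynomial.eval₂Hom_C]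
        have h1 : algebraMap B K (x l) ∈ (wFam k K x w).s (0 + (1 : ℕ) : ℤ) := by
          rw [zero_add]
          exact map_mem_wFam_nat (wIdeal_anti hl (x_mem l))
        have h2 := el_T_mul (wFam k K x w) (e := 1) (one_mem_wFam x w (by norm_num)) h1
          (map_mem_wFam_nonpos le_rfl (x l))
        have h3 : baseW k K x w (x l) = (wFam k K x w).el
            (map_mem_wFam_nonpos (k := k) (K := K) (x := x) (w := w) le_rfl (x l)) := rfl
        rw [h3, ← h2]
        exact Ideal.mul_mem_right _ _ ht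
    have h7 := (hqc.radical_le_iff.2 hle) (hrad i hi)
    rw [Ideal.mem_comap, MvPolynomial.eval₂Hom_X'] at h7
    exact h7
  -- all elements of positive degree
  apply hzq
  obtain ⟨b, hb, rfl⟩ := hz
  have key : ∀ {b : B}, b ∈ wIdeal x w d.toNat → ∃ h : algebraMap B K b ∈ (wFam k K x w).s d,
      (wFam k K x w).el h ∈ q := by
    intro b hb
    refine wIdeal_induction (p := fun b => ∃ h : algebraMap B K b ∈ (wFam k K x w).s d,
      (wFam k K x w).el h ∈ q) (a := d.toNat) (by omega) ?_ ?_ ?_ hb
    · refine ⟨by rw [map_zero]; exact Submodule.zero_mem _, ?_⟩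
      rw [el_eq_zero _ _ (map_zero _)]
      exact Ideal.zero_mem _
    · rintro y - z - ⟨hy, hy'⟩ ⟨hz, hz'⟩
      refine ⟨by rw [map_add]; exact Submodule.add_mem _ hy hz, ?_⟩
      have h1 := Ideal.add_mem _ hy' hz'
      rw [el_add] at h1
      convert h1 using 1
      exact Fam.el_eq _ _ _ rfl (map_add _ _ _)
    · intro i hi y hy
      have h1 : algebraMap B K y ∈ (wFam k K x w).s (d - w i) :=
        map_mem_wFam (by convert hy using 2; omega)
      have h2 := Ideal.mul_mem_right ((wFam k K x w).el h1) _ (hX i hi)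
      rw [Fam.el_mul] at h2
      have h3 := (wFam k K x w).mul' (map_mem_wFam_nat (k := k) (K := K) (x_mem (x := x) i)) h1
      have h4 : (w i : ℤ) + (d - w i) = d := by ring
      refine ⟨by rw [map_mul, ← h4]; exact h3, ?_⟩
      convert h2 using 1
      exact Fam.el_eq _ _ _ h4.symm (map_mul _ _ _)
  exact (key hb).2

end main

end Pool.Agent.MP_b525bf_ag.H90
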