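import Pool.Agent.Lib.MP_b525bf_ag_h90.Deriv

/-!
Derivations `D` with `D ^ p` proportional to `D`.
-/

set_option autoImplicit false

namespace Pool.Agent.MP_b525bf_ag.H90

/-- The derivation `D` is `p`-closed: `D ^ p` is proportional to `D`. -/
def PC {k R : Type} [Field k] [CommRing R] [Algebra k R] (p : ℕ) (D : Derivation k R R) : Prop :=
  ∀ x y, (⇑D)^[p] x * D y = D x * (⇑D)^[p] y

variable {k K : Type} [Field k] [Field K] [Algebra k K]

/-- Powers of `D = z D'` in terms of the powers of `D'`. -/
lemma exists_expand (D D' : Derivation k K K) (z : K) (hD : ∀ x, D x = z * D' x) (m : ℕ) :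
    ∃ c : ℕ → K, (∀ x, (⇑D)^[m] x = ∑ j ∈ Finset.range (m + 1), c j * (⇑D')^[j] x) ∧
      c m = z ^ m ∧ (0 < m → c 0 = 0) ∧ ∀ j, m < j → c j = 0 := by
  induction m with
  | zero =>
    refine ⟨fun j => if j = 0 then 1 else 0, fun x => by simp, by simp, by simp, ?_⟩
    intro j hj
    exact if_neg (by omega)
  | succ m ih =>
    obtain ⟨c, hc, hcm, hc0, hcz⟩ := ih
    refine ⟨fun j => z * D' (c j) + (if j = 0 then 0 else z * c (j - 1)), fun x => ?_, ?_, ?_, ?_⟩
    · rw [Function.iterate_succ', Function.comp_apply, hc, hD, map_sum, Finset.mul_sum]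
      have h1 : ∀ j ∈ Finset.range (m + 1), z * D' (c j * (⇑D')^[j] x) =
          z * D' (c j) * (⇑D')^[j] x + z * c j * (⇑D')^[j + 1] x := by
        intro j _
        rw [D'.leibniz, Function.iterate_succ', Function.comp_apply, smul_eq_mul, smul_eq_mul]
        ring
      rw [Finset.sum_congr rfl h1, Finset.sum_add_distrib]
      have h2 : ∑ j ∈ Finset.range (m + 1 + 1), z * D' (c j) * (⇑D')^[j] x =
          ∑ j ∈ Finset.range (m + 1), z * D' (c j) * (⇑D')^[j] x := by
        rw [Finset.sum_range_succ, hcz (m + 1) (by omega), map_zero]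
        ring
      have h3 : ∑ j ∈ Finset.range (m + 1 + 1),
          (if j = 0 then 0 else z * c (j - 1)) * (⇑D')^[j] x =
          ∑ j ∈ Finset.range (m + 1), z * c j * (⇑D')^[j + 1] x := by
        rw [Finset.sum_range_succ']
        simp
      rw [← h2, ← h3, ← Finset.sum_add_distrib]
      refine Finset.sum_congr rfl fun j _ => ?_
      ring
    · dsimp only
      rw [if_neg (by omega), hcz (m + 1) (by omega), map_zero, Nat.add_sub_cancel, hcm]
      ring
    · intro _
      dsimp only
      rw [if_pos rfl, add_zero]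
      rcases Nat.eq_zero_or_pos m with rfl | hm
      · rw [hcm, pow_zero, D'.map_one_eq_zero, mul_zero]
      · rw [hc0 hm, map_zero, mul_zero]
    · intro j hj
      dsimp only
      rw [if_neg (by omega), hcz j (by omega), hcz (j - 1) (by omega), map_zero]
      ring

/-- If `D` is `p`-closed and `D e ≠ 0`, then `D' = (D e)⁻¹ D` satisfies `D' ^ p = 0`. -/
theorem iter_normalized (p : ℕ) [hp : Fact p.Prime] [CharP k p] (D : Derivation k K K)
    (hPC : PC p D) (e : K) (he : D e ≠ 0) (x : K) :
    (⇑((D e)⁻¹ • D))^[p] x = 0 := by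
  set z := D e with hz
  set D' : Derivation k K K := z⁻¹ • D with hD'
  have hD'x : ∀ x, D' x = z⁻¹ * D x := fun x => rfl
  have hDx : ∀ x, D x = z * D' x := fun x => by
    rw [hD'x, ← mul_assoc, mul_inv_cancel₀ he, one_mul]
  have hD'e : D' e = 1 := by rw [hD'x, ← hz, inv_mul_cancel₀ he]
  obtain ⟨c, hc, hcp, hc0, -⟩ := exists_expand D D' z hDx p
  set f := (⇑D)^[p] e * z⁻¹ with hf
  have hpc : ∀ x, (⇑D)^[p] x = f * z * D' x := by
    intro x
    have h1 := hPC x e
    rw [← hz, hDx x] at h1
    have h3 : f * z = (⇑D)^[p] e := by rw [hf, mul_assoc, inv_mul_cancel₀ he, mul_one]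
    have h2 : (⇑D)^[p] x * z = f * z * D' x * z := by rw [h1, h3]; ring
    exact mul_right_cancel₀ he h2
  have hp2 := hp.out.two_le
  have hfac : ∀ m, m < p → ((m.factorial : ℕ) : K) ≠ 0 := by
    intro m hm h0
    have h1 : ((m.factorial : ℕ) : k) ≠ 0 := natCast_ne_zero_of_lt (k := k) (p := p) hm
    apply h1
    apply (algebraMap k K).injective
    rw [map_natCast, h0, map_zero]
  -- evaluate on powers of `e`
  have hev : ∀ m, m < p → f * z * ((m : K) * e ^ (m - 1)) =
      ∑ j ∈ Finset.range (m + 1), c j * ((m.descFactorial j : K) * e ^ (m - j)) := by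
    intro m hm
    have h1 := hc (e ^ m)
    rw [hpc, D'.leibniz_pow, hD'e] at h1
    simp only [smul_eq_mul, nsmul_eq_mul, mul_one] at h1
    rw [h1]
    symm
    apply Finset.sum_subset_zero_on_sdiff
    · intro j hj
      rw [Finset.mem_range] at hj ⊢
      omega
    · intro j hj
      rw [Finset.mem_sdiff, Finset.mem_range, Finset.mem_range] at hj
      rw [iter_pow hD'e, Nat.descFactorial_of_lt (by omega)]
      simp
    · intro j _
      rw [iter_pow hD'e]
  have hc1 : c 1 = f * z := by
    have h1 := hev 1 (by omega)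
    rw [Finset.sum_range_succ, Finset.sum_range_one, hc0 (by omega)] at h1
    simpa using h1.symm
  have hcz : ∀ m, 2 ≤ m → m < p → c m = 0 := by
    intro m
    induction m using Nat.strong_induction_on with
    | _ m ih =>
      intro hm2 hmp
      have h1 := hev m hmp
      rw [Finset.sum_range_succ, Finset.sum_eq_single 1] at h1
      · rw [hc1, Nat.descFactorial_one, Nat.descFactorial_self, Nat.sub_self, pow_zero,
          mul_one] at h1
        have h2 : c m * ((m.factorial : ℕ) : K) = 0 := by
          linear_combination -h1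
        exact (mul_eq_zero.1 h2).resolve_right (hfac m hmp)
      · intro j hj hj1
        rw [Finset.mem_range] at hj
        rcases Nat.eq_zero_or_pos j with rfl | hj0
        · rw [hc0 (by omega), zero_mul]
        · rw [ih j hj (by omega) (by omega), zero_mul]
      · intro h
        exact absurd (Finset.mem_range.2 (by omega)) h
  have h1 := hc x
  rw [hpc, Finset.sum_range_succ, Finset.sum_eq_single 1] at h1
  · rw [hc1, Function.iterate_one, hcp] at h1
    have h2 : z ^ p * (⇑D')^[p] x = 0 := by linear_combination -h1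
    exact (mul_eq_zero.1 h2).resolve_left (pow_ne_zero _ he)
  · intro j hj hj1
    rw [Finset.mem_range] at hj
    rcases Nat.eq_zero_or_pos j with rfl | hj0
    · rw [hc0 (by omega), zero_mul]
    · rw [hcz j (by omega) hj, zero_mul]
  · intro h
    exact absurd (Finset.mem_range.2 (by omega)) h

end Pool.Agent.MP_b525bf_ag.H90
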